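import Pool.Agent.Helper27.Har.P_global_ode
import Pool.Agent.Helper31.GZ.Brouwer

/-!
# A two-point problem for a Galerkin system of Boussinesq type

In a finite-dimensional real inner product space `E` we solve
`w' = - B(w,w) - A w + G θ`, `θ' = - B(w,θ)` with `w(0) = 0` and `θ(T) = y`.
-/

set_option autoImplicit false

open Set Filter Topology
open scoped RealInnerProductSpace ContDiff

namespace Pool.Agent.Q64.Bous

variable {E : Type*} [NormedAddCommGroup E] [InnerProductSpace ℝ E] [FiniteDimensional ℝ E]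

/-- The state space of the extended system. -/
abbrev X (E : Type*) [NormedAddCommGroup E] [InnerProductSpace ℝ E] := E × (E →L[ℝ] E) × E

/-- The unclipped vector field. -/
noncomputable def V0 (B : E →L[ℝ] E →L[ℝ] E) (A G : E →L[ℝ] E) (z : X E) : X E :=
  (- B z.1 z.1 - A z.1 + G (z.2.1 z.2.2), - ((B z.1).comp z.2.1), 0)

omit [FiniteDimensional ℝ E] in
theorem V0_contDiff (B : E →L[ℝ] E →L[ℝ] E) (A G : E →L[ℝ] E) : ContDiff ℝ ∞ (V0 B A G) := by
  unfold V0
  have h1 : ContDiff ℝ ∞ (fun z : X E => z.1) := contDiff_fst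
  have h2 : ContDiff ℝ ∞ (fun z : X E => z.2.1) := contDiff_fst.comp contDiff_snd
  have h3 : ContDiff ℝ ∞ (fun z : X E => z.2.2) := contDiff_snd.comp contDiff_snd
  have h4 : ContDiff ℝ ∞ (fun z : X E => B z.1) := B.contDiff.comp h1
  refine ContDiff.prodMk ?_ (ContDiff.prodMk ?_ contDiff_const)
  · exact ((h4.clm_apply h1).neg.sub (A.contDiff.comp h1)).add (G.contDiff.comp (h2.clm_apply h3))
  · exact (h4.clm_comp h2).neg

theorem hd_fst {F G : Type*} [NormedAddCommGroup F] [NormedSpace ℝ F] [NormedAddCommGroup G]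
    [NormedSpace ℝ G] {z : ℝ → F × G} {z' : F × G} {t : ℝ} (h : HasDerivAt z z' t) :
    HasDerivAt (fun s => (z s).1) z'.1 t :=
  (ContinuousLinearMap.fst ℝ F G).hasFDerivAt.comp_hasDerivAt t h

theorem hd_snd {F G : Type*} [NormedAddCommGroup F] [NormedSpace ℝ F] [NormedAddCommGroup G]
    [NormedSpace ℝ G] {z : ℝ → F × G} {z' : F × G} {t : ℝ} (h : HasDerivAt z z' t) :
    HasDerivAt (fun s => (z s).2) z'.2 t :=
  (ContinuousLinearMap.snd ℝ F G).hasFDerivAt.comp_hasDerivAt t h

theorem exists_two_point (B : E →L[ℝ] E →L[ℝ] E) (hB : ∀ a b, ⟪B a b, b⟫ = 0)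
    (A G : E →L[ℝ] E) (c d : ℝ) (hc : 0 < c) (hd : 0 ≤ d)
    (hAG : ∀ w θ, 2 * ⟪G θ - A w, w⟫ ≤ -c * ‖w‖ ^ 2 + d * ‖θ‖ ^ 2)
    (T T' : ℝ) (hT : 0 ≤ T) (hTT : T ≤ T') (y : E) :
    ∃ w θ : ℝ → E, w 0 = 0 ∧ θ T = y ∧ ∀ t ∈ Icc 0 T',
      HasDerivAt w (- B (w t) (w t) - A (w t) + G (θ t)) t ∧
      HasDerivAt θ (- B (w t) (θ t)) t ∧ ‖θ t‖ = ‖y‖ ∧ ‖w t‖ ^ 2 ≤ d / c * ‖y‖ ^ 2 := by
  have hT'0 : 0 ≤ T' := hT.trans hTT
  set R : ℝ := Real.sqrt (d * ‖y‖ ^ 2 * T') + 1 + ‖y‖ with hR
  have hR0 : 0 < R := by positivity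
  let χ : ContDiffBump (0 : X E) := ⟨R, R + 1, hR0, by linarith⟩
  set V : X E → X E := fun z => χ z • V0 B A G z with hV
  have hVc : ContDiff ℝ 1 V := by
    have h1 : ContDiff ℝ ∞ V := χ.contDiff.smul (V0_contDiff B A G)
    exact h1.of_le (by exact_mod_cast le_top)
  have hVs : HasCompactSupport V := χ.hasCompactSupport.smul_right
  obtain ⟨K, hK⟩ := hVc.lipschitzWith_of_hasCompactSupport hVs (by norm_num)
  have hex : ∀ x : E, ∃ z : ℝ → X E, z 0 = (0, ContinuousLinearMap.id ℝ E, x) ∧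
      ∀ t, HasDerivAt z (V (z t)) t := fun x =>
    Haraux.global_ode (fun _ => V) K (fun _ => hK)
      (hK.continuous.comp continuous_snd) _
  choose z hz0 hz using hex
  have hχ0 : ∀ p, 0 ≤ χ p := fun p => χ.nonneg
  have hχ1 : ∀ p, χ p ≤ 1 := fun p => χ.le_one
  -- the third component is constant
  have h3 : ∀ x t, (z x t).2.2 = x := by
    intro x t
    have hd : ∀ t, HasDerivAt (fun s => (z x s).2.2) 0 t := by
      intro t
      have := hd_snd (hd_snd (hz x t))
      simpa [hV, V0] using this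
    have := is_const_of_deriv_eq_zero (fun t => (hd t).differentiableAt) (fun t => (hd t).deriv) t 0
    simpa [hz0] using this
  -- the linear component
  have hU : ∀ x t, HasDerivAt (fun s => (z x s).2.1)
      (- (χ (z x t) • (B (z x t).1).comp (z x t).2.1)) t := by
    intro x t
    have := hd_fst (hd_snd (hz x t))
    simpa [hV, V0] using this
  have hw : ∀ x t, HasDerivAt (fun s => (z x s).1)
      (χ (z x t) • (- B (z x t).1 (z x t).1 - A (z x t).1 + G ((z x t).2.1 x))) t := by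
    intro x t
    have := hd_fst (hz x t)
    simpa [hV, V0, h3] using this
  have hUv : ∀ x t v, HasDerivAt (fun s => (z x s).2.1 v)
      (- (χ (z x t) • B (z x t).1 ((z x t).2.1 v))) t := by
    intro x t v
    have := (hU x t).clm_apply (hasDerivAt_const t v)
    simpa using this
  have hiso : ∀ x t v, ‖(z x t).2.1 v‖ = ‖v‖ := by
    intro x t v
    have hd : ∀ t, HasDerivAt (fun s => ⟪(z x s).2.1 v, (z x s).2.1 v⟫) 0 t := by
      intro t
      have := (hUv x t v).inner ℝ (hUv x t v)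
      refine this.congr_deriv ?_
      rw [inner_neg_right, inner_neg_left, real_inner_smul_left, real_inner_smul_right,
        real_inner_comm, hB]
      simp
    have := is_const_of_deriv_eq_zero (fun t => (hd t).differentiableAt) (fun t => (hd t).deriv) t 0
    simp only [hz0] at this
    rw [real_inner_self_eq_norm_sq, ContinuousLinearMap.id_apply, real_inner_self_eq_norm_sq] at this
    exact (sq_eq_sq₀ (norm_nonneg _) (norm_nonneg _)).1 this
  have hwsq : ∀ x t, HasDerivAt (fun s => ‖(z x s).1‖ ^ 2)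
      (χ (z x t) * (2 * ⟪G ((z x t).2.1 x) - A (z x t).1, (z x t).1⟫)) t := by
    intro x t
    have h1 := (hw x t).inner ℝ (hw x t)
    simp only [real_inner_self_eq_norm_sq] at h1
    refine h1.congr_deriv ?_
    rw [real_inner_smul_right, real_inner_smul_left]
    rw [real_inner_comm]
    have h2 : ⟪-B (z x t).1 (z x t).1 - A (z x t).1 + G ((z x t).2.1 x), (z x t).1⟫
        = ⟪G ((z x t).2.1 x) - A (z x t).1, (z x t).1⟫ := by
      rw [inner_add_left, inner_sub_left, inner_neg_left, hB, inner_sub_left]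
      ring
    rw [h2]
    ring
  have hwle : ∀ x t, 0 ≤ t → ‖(z x t).1‖ ^ 2 ≤ d * ‖x‖ ^ 2 * t := by
    intro x t ht
    have hanti : Antitone (fun s => ‖(z x s).1‖ ^ 2 - d * ‖x‖ ^ 2 * s) := by
      refine antitone_of_hasDerivAt_nonpos (f' := fun s =>
        χ (z x s) * (2 * ⟪G ((z x s).2.1 x) - A (z x s).1, (z x s).1⟫) - d * ‖x‖ ^ 2 * 1) ?_ ?_
      · intro s
        exact (hwsq x s).fun_sub ((hasDerivAt_id s).const_mul _)
      · intro s
        have h1 := hAG (z x s).1 ((z x s).2.1 x)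
        rw [hiso] at h1
        have h4 : χ (z x s) * (2 * ⟪G ((z x s).2.1 x) - A (z x s).1, (z x s).1⟫)
            ≤ χ (z x s) * (-c * ‖(z x s).1‖ ^ 2 + d * ‖x‖ ^ 2) :=
          mul_le_mul_of_nonneg_left h1 (hχ0 _)
        have h5 : χ (z x s) * (-c * ‖(z x s).1‖ ^ 2 + d * ‖x‖ ^ 2) ≤ d * ‖x‖ ^ 2 := by
          have h6 : χ (z x s) * (d * ‖x‖ ^ 2) ≤ 1 * (d * ‖x‖ ^ 2) :=
            mul_le_mul_of_nonneg_right (hχ1 _) (by positivity)
          have h7 : 0 ≤ χ (z x s) * (c * ‖(z x s).1‖ ^ 2) :=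
            mul_nonneg (hχ0 _) (by positivity)
          linarith
        simp only [Pi.zero_apply]
        linarith
    have := hanti ht
    simp only [hz0] at this
    simp at this
    linarith
  -- the fixed point map
  set Ψ : E → E := fun x => ContinuousLinearMap.adjoint (z x T).2.1 y with hΨ
  have hΨn : ∀ x, ‖Ψ x‖ ≤ ‖y‖ := by
    intro x
    have h1 : ‖(z x T).2.1‖ ≤ 1 :=
      ContinuousLinearMap.opNorm_le_bound _ zero_le_one (fun v => by rw [hiso, one_mul])
    calc ‖Ψ x‖ ≤ ‖ContinuousLinearMap.adjoint (z x T).2.1‖ * ‖y‖ :=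
          ContinuousLinearMap.le_opNorm _ _
      _ = ‖(z x T).2.1‖ * ‖y‖ := by rw [LinearIsometryEquiv.norm_map]
      _ ≤ 1 * ‖y‖ := mul_le_mul_of_nonneg_right h1 (norm_nonneg _)
      _ = ‖y‖ := one_mul _
  have hzc : Continuous (fun x => z x T) := by
    have hlip : LipschitzWith (Real.toNNReal (Real.exp (K * T))) (fun x => z x T) := by
      refine LipschitzWith.of_dist_le_mul (fun x x' => ?_)
      have h1 := dist_le_of_trajectories_ODE (v := fun _ => V) (K := K) (f := z x) (g := z x')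
        (a := 0) (b := T) (δ := dist x x') (fun _ => hK)
        (fun t _ => (hz x t).continuousAt.continuousWithinAt)
        (fun t _ => (hz x t).hasDerivWithinAt)
        (fun t _ => (hz x' t).continuousAt.continuousWithinAt)
        (fun t _ => (hz x' t).hasDerivWithinAt)
        (by rw [hz0, hz0]; simp [Prod.dist_eq]) T ⟨hT, le_rfl⟩
      rw [sub_zero] at h1
      rw [Real.coe_toNNReal _ (Real.exp_pos _).le, mul_comm]
      exact h1
    exact hlip.continuous
  have hΨc : Continuous Ψ := by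
    have h1 : Continuous (fun x => ContinuousLinearMap.adjoint (z x T).2.1) :=
      (LinearIsometryEquiv.continuous _).comp (continuous_fst.comp (continuous_snd.comp hzc))
    exact h1.clm_apply continuous_const
  obtain ⟨x, hx⟩ := Pool.Agent.Helper31.GZ.Brouwer.brouwer Ψ hΨc ‖y‖ hΨn
  -- U x = y
  have hUx : (z x T).2.1 x = y := by
    have hinj : Function.Injective (z x T).2.1 := by
      rw [injective_iff_map_eq_zero]
      intro v hv
      rw [← norm_eq_zero, ← hiso x T v, hv, norm_zero]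
    have hsurj : Function.Surjective (z x T).2.1 :=
      (LinearMap.injective_iff_surjective (f := ((z x T).2.1 : E →ₗ[ℝ] E))).1 hinj
    obtain ⟨v, hv⟩ := hsurj y
    have h1 : ContinuousLinearMap.adjoint (z x T).2.1 ((z x T).2.1 v) = v := by
      refine ext_inner_right ℝ (fun u => ?_)
      rw [ContinuousLinearMap.adjoint_inner_left]
      -- polarization
      have h2 := hiso x T (v + u)
      have h3 := hiso x T v
      have h4 := hiso x T u
      rw [map_add] at h2
      have h5 := congrArg (fun s => s ^ 2) h2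
      simp only [norm_add_sq_real, h3, h4] at h5
      linarith
    have h2 : x = v := by
      rw [← hx, hΨ]
      simp only
      rw [← hv, h1]
    rw [h2, ← h2, ← hv, h2]
  have hxy : ‖x‖ = ‖y‖ := by rw [← hUx, hiso]
  have hχ : ∀ t ∈ Icc 0 T', χ (z x t) = 1 := by
    intro t ht
    apply χ.one_of_mem_closedBall
    rw [mem_closedBall_zero_iff]
    show ‖z x t‖ ≤ R
    rw [Prod.norm_def, Prod.norm_def, h3]
    have h1 : ‖(z x t).2.1‖ ≤ 1 :=
      ContinuousLinearMap.opNorm_le_bound _ zero_le_one (fun v => by rw [hiso, one_mul])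
    have h2 : ‖(z x t).1‖ ≤ Real.sqrt (d * ‖y‖ ^ 2 * T') := by
      apply Real.le_sqrt_of_sq_le
      calc ‖(z x t).1‖ ^ 2 ≤ d * ‖x‖ ^ 2 * t := hwle x t ht.1
        _ ≤ d * ‖y‖ ^ 2 * T' := by
          rw [hxy]
          exact mul_le_mul_of_nonneg_left ht.2 (by positivity)
    have h4 : 0 ≤ Real.sqrt (d * ‖y‖ ^ 2 * T') := Real.sqrt_nonneg _
    refine max_le ?_ (max_le ?_ ?_)
    · linarith [norm_nonneg y]
    · linarith [norm_nonneg y]
    · linarith [norm_nonneg y]
  refine ⟨fun t => (z x t).1, fun t => (z x t).2.1 x, ?_, hUx, ?_⟩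
  · simp [hz0]
  intro t ht
  refine ⟨?_, ?_, ?_, ?_⟩
  · have := hw x t
    rw [hχ t ht, one_smul] at this
    exact this
  · have := hUv x t x
    rw [hχ t ht, one_smul] at this
    exact this
  · show ‖(z x t).2.1 x‖ = ‖y‖
    rw [hiso, hxy]
  · show ‖(z x t).1‖ ^ 2 ≤ d / c * ‖y‖ ^ 2
    have hder : ∀ s, HasDerivAt (fun s => Real.exp (c * s) * (‖(z x s).1‖ ^ 2 - d / c * ‖y‖ ^ 2))
        (Real.exp (c * s) * c * (‖(z x s).1‖ ^ 2 - d / c * ‖y‖ ^ 2) +
          Real.exp (c * s) * (χ (z x s) * (2 * ⟪G ((z x s).2.1 x) - A (z x s).1, (z x s).1⟫))) s := by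
      intro s
      have h1 : HasDerivAt (fun s => Real.exp (c * s)) (Real.exp (c * s) * c) s := by
        simpa using ((hasDerivAt_id s).const_mul c).exp
      exact h1.fun_mul ((hwsq x s).sub_const _)
    have hanti : AntitoneOn (fun s => Real.exp (c * s) * (‖(z x s).1‖ ^ 2 - d / c * ‖y‖ ^ 2))
        (Icc 0 T') := by
      refine antitoneOn_of_deriv_nonpos (convex_Icc 0 T')
        (fun s _ => (hder s).continuousAt.continuousWithinAt)
        (fun s _ => (hder s).differentiableAt.differentiableWithinAt) ?_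
      intro s hs
      rw [interior_Icc] at hs
      rw [(hder s).deriv, hχ s ⟨hs.1.le, hs.2.le⟩, one_mul]
      have h1 := hAG (z x s).1 ((z x s).2.1 x)
      rw [hiso, hxy] at h1
      have h2 : c * (‖(z x s).1‖ ^ 2 - d / c * ‖y‖ ^ 2) +
          (2 * ⟪G ((z x s).2.1 x) - A (z x s).1, (z x s).1⟫) ≤ 0 := by
        have h3 : c * (d / c * ‖y‖ ^ 2) = d * ‖y‖ ^ 2 := by
          field_simp
        linarith
      have h4 := mul_nonpos_of_nonneg_of_nonpos (Real.exp_pos (c * s)).le h2
      linarith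
    have h0 := hanti (left_mem_Icc.2 hT'0) ht ht.1
    simp only [hz0, mul_zero, Real.exp_zero, norm_zero, one_mul] at h0
    have h1 : 0 < Real.exp (c * t) := Real.exp_pos _
    have h2 : Real.exp (c * t) * (‖(z x t).1‖ ^ 2 - d / c * ‖y‖ ^ 2) ≤ 0 := by
      refine h0.trans ?_
      have : 0 ≤ d / c * ‖y‖ ^ 2 := by positivity
      simp
      linarith
    have h5 := nonpos_of_mul_nonpos_right h2 h1
    linarith

end Pool.Agent.Q64.Bous
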