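import Pool.Agent.Q64.Bous.Trans

/-!
# Every mean-free temperature occurs in the attractors
-/

set_option autoImplicit false

open Set Filter Topology MeasureTheory
open scoped ComplexConjugate ContDiff

namespace Pool.Agent.Q64.Bous

/-- punctured boxes of frequencies -/
noncomputable def pbox (n : ℕ) : Finset Fr := (box n).erase 0

theorem pbox_neg (n : ℕ) : ∀ k ∈ pbox n, -k ∈ pbox n := by
  intro k hk
  unfold pbox at hk ⊢
  rw [Finset.mem_erase, mem_box] at hk ⊢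
  refine ⟨fun h => hk.1 (neg_eq_zero.1 h), fun i => ?_⟩
  rw [Pi.neg_apply, abs_neg]
  exact hk.2 i

theorem zero_notMem_pbox (n : ℕ) : (0 : Fr) ∉ pbox n := by
  unfold pbox
  simp

theorem mem_pbox_eventually (k : Fr) (hk : k ≠ 0) : ∀ᶠ n : ℕ in atTop, k ∈ (pbox n : Set Fr) := by
  filter_upwards [eventually_ge_atTop (max (k 0).natAbs (k 1).natAbs)] with n hn
  unfold pbox
  rw [Finset.mem_coe, Finset.mem_erase, mem_box]
  refine ⟨hk, fun i => ?_⟩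
  have h0 : (k 0).natAbs ≤ n := (le_max_left _ _).trans hn
  have h1 : (k 1).natAbs ≤ n := (le_max_right _ _).trans hn
  fin_cases i
  · show |k 0| ≤ (n : ℤ)
    rw [Int.abs_eq_natAbs]
    exact_mod_cast h0
  · show |k 1| ≤ (n : ℤ)
    rw [Int.abs_eq_natAbs]
    exact_mod_cast h1

theorem CSol.shift {ν κ g : ℝ} {Λ : Set Fr} {I : Set ℝ} {C : ℝ} {w θ : ℝ → Fr → ℂ}
    (h : CSol ν κ g Λ I C w θ) (a : ℝ) :
    CSol ν κ g Λ {t | t + a ∈ I} C (fun t => w (t + a)) (fun t => θ (t + a)) := by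
  refine ⟨fun t ht => h.supp _ ht, fun t ht => h.symm _ ht, fun t ht => h.sq_w _ ht,
    fun t ht => h.sq_θ _ ht, fun k => ⟨?_, ?_⟩, ?_, ?_⟩
  · exact (h.cont k).1.comp (continuous_id.add continuous_const).continuousOn (fun t ht => ht)
  · exact (h.cont k).2.comp (continuous_id.add continuous_const).continuousOn (fun t ht => ht)
  · intro k hk s hs t ht
    rw [h.eq_w k hk _ hs _ ht]
    exact (intervalIntegral.integral_comp_add_right (fun τ => Fw ν κ g (w τ) (θ τ) k) a).symm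
  · intro k hk s hs t ht
    rw [h.eq_θ k hk _ hs _ ht]
    exact (intervalIntegral.integral_comp_add_right (fun τ => -NN (w τ) (θ τ) k) a).symm

theorem exists_half (ν κ g : ℝ) (hν : 0 < ν) (hκ : 0 < κ) (c : Fr → ℂ)
    (hc : ∀ k, c (-k) = conj (c k)) (hc0 : c 0 = 0) (r : ℝ) (hcr : SqLe c r) (N : ℕ) :
    ∃ w θ : ℝ → Fr → ℂ, CSol ν κ g {0}ᶜ (Ici (-(N : ℝ)))
      (g ^ 2 / ν / (ν * κ ^ 2) * r + r) w θ ∧ w (-(N : ℝ)) = 0 ∧ θ 0 = c := by
  choose w θ hw hθ h using fun n : ℕ => galerkin_CSol (g := g) hν hκ (pbox n) (pbox_neg n)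
    (zero_notMem_pbox n) N n (Nat.cast_nonneg N) (Nat.cast_nonneg n) c hc r hcr
  have hJ0 : (0 : ℝ) ∈ Ici (-(N : ℝ)) := by
    show -(N : ℝ) ≤ 0
    simp
  obtain ⟨φ, hφ, w', θ', hsol, hlim⟩ := compactness (fun n => (pbox n : Set Fr))
    (fun n => Icc (-(N : ℝ)) n) (Ici (-(N : ℝ))) ordConnected_Ici
    (fun n => by simpa using zero_notMem_pbox n) (fun k hk => mem_pbox_eventually k hk) (by
      intro a ha b hb
      filter_upwards [eventually_ge_atTop ⌈max a b⌉₊] with n hn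
      have h1 : max a b ≤ n := (Nat.le_ceil _).trans (by exact_mod_cast hn)
      rintro x ⟨hx1, hx2⟩
      exact ⟨(le_min ha hb).trans hx1, hx2.trans h1⟩) w θ h
  refine ⟨w', θ', hsol, ?_, ?_⟩
  · funext k
    have h1 := (hlim (-(N : ℝ)) (mem_Ici.2 le_rfl) k).1
    simp only [hw] at h1
    exact (tendsto_nhds_unique h1 tendsto_const_nhds)
  · funext k
    by_cases hk : k = 0
    · subst hk
      rw [(hsol.supp 0 hJ0 0 (by simp)).2, hc0]
    · have h1 := (hlim 0 hJ0 k).2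
      refine tendsto_nhds_unique h1 (tendsto_const_nhds.congr' ?_)
      filter_upwards [hφ.tendsto_atTop.eventually (mem_pbox_eventually k hk)] with n hn
      exact (hθ (φ n) k hn).symm

theorem exists_all (ν κ g : ℝ) (hν : 0 < ν) (hκ : 0 < κ) (c : Fr → ℂ)
    (hc : ∀ k, c (-k) = conj (c k)) (hc0 : c 0 = 0) (r : ℝ) (hcr : SqLe c r) :
    ∃ (w θ : ℕ → ℝ → Fr → ℂ) (φ : ℕ → ℕ) (w' θ' : ℝ → Fr → ℂ), StrictMono φ ∧
      (∀ N : ℕ, CSol ν κ g {0}ᶜ (Ici (-(N : ℝ))) (g ^ 2 / ν / (ν * κ ^ 2) * r + r) (w N) (θ N) ∧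
        w N (-(N : ℝ)) = 0 ∧ θ N 0 = c) ∧
      CSol ν κ g {0}ᶜ univ (g ^ 2 / ν / (ν * κ ^ 2) * r + r) w' θ' ∧ θ' 0 = c ∧
      (∀ k, Tendsto (fun n => w (φ n) 0 k) atTop (𝓝 (w' 0 k))) := by
  choose w θ h hw hθ using exists_half ν κ g hν hκ c hc hc0 r hcr
  obtain ⟨φ, hφ, w', θ', hsol, hlim⟩ := compactness (fun _ => ({0}ᶜ : Set Fr))
    (fun n => Ici (-(n : ℝ))) univ ordConnected_univ (fun n => by simp)
    (fun k hk => Eventually.of_forall (fun _ => by simpa using hk)) (by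
      intro a _ b _
      filter_upwards [eventually_ge_atTop ⌈-min a b⌉₊] with n hn
      have h1 : -min a b ≤ n := (Nat.le_ceil _).trans (by exact_mod_cast hn)
      rintro x ⟨hx1, hx2⟩
      show -(n : ℝ) ≤ x
      linarith) w θ h
  refine ⟨w, θ, φ, w', θ', hφ, fun N => ⟨h N, hw N, hθ N⟩, hsol, ?_,
    fun k => (hlim 0 (mem_univ _) k).1⟩
  funext k
  have h1 := (hlim 0 (mem_univ _) k).2
  simp only [hθ] at h1
  exact (tendsto_nhds_unique h1 tendsto_const_nhds)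

theorem toL2_fc (θ₀ : LpR) : toL2 (fc (cx θ₀)) = θ₀ := by
  obtain ⟨r, hr⟩ := sqLe_fc_cx θ₀
  apply LpR_ext
  intro k
  rw [fc_toL2 (memℓp_of_sqLe hr) (fc_cx_neg θ₀)]

theorem mem_attractor {L ν g : ℝ} (hL : 0 < L) (hν : 0 < ν) (θ₀ : LpR) (h0 : MeanFree θ₀) :
    ∃ u₀ : Fin 2 → LpR, (u₀, θ₀) ∈ Attractor L ν g := by
  obtain ⟨r, hr⟩ := sqLe_fc_cx θ₀
  have hκ : 0 < 2 * Real.pi / L := by positivity
  obtain ⟨w, θ, φ, w', θ', hφ, h1, h2, h3, h4⟩ := exists_all ν (2 * Real.pi / L) g hν hκ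
    (fc (cx θ₀)) (fc_cx_neg θ₀) ((meanFree_iff θ₀).1 h0) r hr
  have hsol := h2.isSolution hL
  refine ⟨fun i => toL2 (uc (2 * Real.pi / L) (w' 0) i), ?_, h0, _, _, hsol, rfl, ?_, ?_⟩
  · exact hsol.memH 0 (mem_univ _)
  · show toL2 (θ' 0) = θ₀
    rw [h3, toL2_fc]
  · refine ⟨max (Real.sqrt (1 / (2 * Real.pi / L) ^ 2 * (g ^ 2 / ν / (ν * (2 * Real.pi / L) ^ 2) * r + r)))
      (Real.sqrt (g ^ 2 / ν / (ν * (2 * Real.pi / L) ^ 2) * r + r)), fun t => ⟨fun i => ?_, ?_⟩⟩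
    · exact (Real.le_sqrt_of_sq_le (norm_toL2_sq (sqLe_uc hκ (h2.sq_w t (mem_univ _)) i))).trans
        (le_max_left _ _)
    · exact (Real.le_sqrt_of_sq_le (norm_toL2_sq (h2.sq_θ t (mem_univ _)))).trans
        (le_max_right _ _)

theorem mem_omegaAttractor {L ν g : ℝ} (hL : 0 < L) (hν : 0 < ν) (θ₀ : LpR) (h0 : MeanFree θ₀) :
    ∃ u₀ : Fin 2 → LpR, (u₀, θ₀) ∈ OmegaAttractor L ν g := by
  obtain ⟨r, hr⟩ := sqLe_fc_cx θ₀
  have hκ : 0 < 2 * Real.pi / L := by positivity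
  obtain ⟨w, θ, φ, w', θ', hφ, h1, h2, h3, h4⟩ := exists_all ν (2 * Real.pi / L) g hν hκ
    (fc (cx θ₀)) (fc_cx_neg θ₀) ((meanFree_iff θ₀).1 h0) r hr
  have hsol' := h2.isSolution hL
  set κ : ℝ := 2 * Real.pi / L with hκd
  set C : ℝ := g ^ 2 / ν / (ν * κ ^ 2) * r + r with hC
  refine ⟨fun i => toL2 (uc κ (w' 0) i), hsol'.memH 0 (mem_univ _), h0,
    fun n => (φ n : ℝ),
    fun n => (fun i => toL2 (uc κ (w (φ n) (-(φ n : ℝ))) i), toL2 (θ (φ n) (-(φ n : ℝ)))),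
    fun n => (fun i => toL2 (uc κ (w (φ n) 0) i), toL2 (θ (φ n) 0)),
    fun n => Nat.cast_nonneg _, tendsto_natCast_atTop_atTop.comp hφ.tendsto_atTop, ?_, ?_, ?_, ?_⟩
  · refine ⟨max (Real.sqrt (1 / κ ^ 2 * C)) (Real.sqrt C), fun n => ⟨fun i => ?_, ?_⟩⟩
    · exact (Real.le_sqrt_of_sq_le (norm_toL2_sq (sqLe_uc hκ
        ((h1 (φ n)).1.sq_w _ (mem_Ici.2 le_rfl)) i))).trans (le_max_left _ _)
    · exact (Real.le_sqrt_of_sq_le (norm_toL2_sq
        ((h1 (φ n)).1.sq_θ _ (mem_Ici.2 le_rfl)))).trans (le_max_right _ _)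
  · intro n
    have h5 := (h1 (φ n)).1.shift (-(φ n : ℝ))
    have h6 : {t : ℝ | t + -(φ n : ℝ) ∈ Ici (-(φ n : ℝ))} = Ici 0 := by
      ext t
      simp
    rw [h6] at h5
    refine ⟨_, _, h5.isSolution hL, ?_, ?_⟩
    · simp only [zero_add]
      rfl
    · simp only [add_neg_cancel]
      rfl
  · intro i ψ
    have hj : ∀ n : ℕ, (0 : ℝ) ∈ Ici (-(φ n : ℝ)) := fun n => by
      show -(φ n : ℝ) ≤ 0
      simp
    refine toL2_weak_tendsto (C := 1 / κ ^ 2 * C) ?_ (sqLe_uc hκ (h2.sq_w 0 (mem_univ _)) i)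
      (fun k => uc_neg κ (fun k => (h2.symm 0 (mem_univ _) k).1) i k) ?_ ψ
    · exact Eventually.of_forall (fun n => ⟨sqLe_uc hκ ((h1 (φ n)).1.sq_w 0 (hj n)) i,
        fun k => uc_neg κ (fun k => ((h1 (φ n)).1.symm 0 (hj n) k).1) i k⟩)
    · intro k
      unfold uc
      exact (h4 k).const_mul _
  · intro ψ
    simp only [(h1 _).2.2, toL2_fc]
    exact tendsto_const_nhds

end Pool.Agent.Q64.Bous
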