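import Mathlib

/-!
# The bilinear term `u · ∇ θ` in Fourier coefficients

`NN a b k = ∑_j (k · j^⊥) / |j|² a_j b_{k-j}`.
-/

set_option autoImplicit false

open Set Filter Topology

namespace Pool.Agent.Q64.Bous

/-- Frequencies. -/
abbrev Fr := Fin 2 → ℤ

/-- `|k|²` -/
def nsq (k : Fr) : ℝ := (k 0 : ℝ) ^ 2 + (k 1 : ℝ) ^ 2

/-- `k · j^⊥` with `j^⊥ = (-j₁, j₀)` -/
def cr (k j : Fr) : ℝ := (k 1 : ℝ) * j 0 - (k 0 : ℝ) * j 1

/-- the multiplier `(k · j^⊥) / |j|²` -/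
noncomputable def mu (k j : Fr) : ℝ := cr k j / nsq j

/-- `|k₀| + |k₁|` -/
def l1 (k : Fr) : ℝ := |(k 0 : ℝ)| + |(k 1 : ℝ)|

theorem nsq_nonneg (k : Fr) : 0 ≤ nsq k := by unfold nsq; positivity

theorem l1_nonneg (k : Fr) : 0 ≤ l1 k := by unfold l1; positivity

theorem nsq_neg (k : Fr) : nsq (-k) = nsq k := by
  unfold nsq
  simp

theorem nsq_zero : nsq 0 = 0 := by simp [nsq]

theorem one_le_nsq {k : Fr} (hk : k ≠ 0) : 1 ≤ nsq k := by
  have h : (1 : ℤ) ≤ k 0 ^ 2 + k 1 ^ 2 := by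
    by_contra h
    push Not at h
    have h0 : k 0 ^ 2 ≥ 0 := sq_nonneg _
    have h1 : k 1 ^ 2 ≥ 0 := sq_nonneg _
    have h2 : k 0 = 0 := by
      have : k 0 ^ 2 = 0 := by omega
      exact pow_eq_zero_iff (two_ne_zero) |>.1 this
    have h3 : k 1 = 0 := by
      have : k 1 ^ 2 = 0 := by omega
      exact pow_eq_zero_iff (two_ne_zero) |>.1 this
    apply hk
    ext i
    fin_cases i
    · exact h2
    · exact h3
  unfold nsq
  exact_mod_cast h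

theorem nsq_pos {k : Fr} (hk : k ≠ 0) : 0 < nsq k := lt_of_lt_of_le one_pos (one_le_nsq hk)

theorem mu_zero_right (k : Fr) : mu k 0 = 0 := by simp [mu, nsq_zero]

theorem cr_self_sub (k l : Fr) : cr k (k - l) = - cr k l := by
  unfold cr
  simp
  ring

theorem cr_swap (k l : Fr) : cr k l = - cr l k := by
  unfold cr
  ring

theorem mu_neg_neg (k j : Fr) : mu (-k) (-j) = mu k j := by
  unfold mu
  rw [nsq_neg]
  unfold cr
  simp

theorem nsq_sub_comm (k l : Fr) : nsq (k - l) = nsq (l - k) := by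
  rw [← nsq_neg, neg_sub]

theorem mu_skew (k l : Fr) : mu k (k - l) = - mu l (l - k) := by
  unfold mu
  rw [cr_self_sub, cr_self_sub, nsq_sub_comm k l, cr_swap k l]
  ring

theorem abs_cr_le (k j : Fr) : |cr k j| ≤ |(k 1 : ℝ)| * |(j 0 : ℝ)| + |(k 0 : ℝ)| * |(j 1 : ℝ)| := by
  unfold cr
  calc |(k 1 : ℝ) * j 0 - (k 0 : ℝ) * j 1| ≤ |(k 1 : ℝ) * j 0| + |(k 0 : ℝ) * j 1| := abs_sub _ _
    _ = _ := by rw [abs_mul, abs_mul]

/-- if some `|j_i| ≥ m` then `|mu k j| ≤ l1 k / m` -/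
theorem abs_mu_le_div (k j : Fr) (m : ℝ) (hm : 0 < m) (hj : m ≤ |(j 0 : ℝ)| ∨ m ≤ |(j 1 : ℝ)|) :
    |mu k j| ≤ l1 k / m := by
  have hmax : m ≤ max |(j 0 : ℝ)| |(j 1 : ℝ)| := by
    rcases hj with h | h
    · exact h.trans (le_max_left _ _)
    · exact h.trans (le_max_right _ _)
  have hM : 0 ≤ max |(j 0 : ℝ)| |(j 1 : ℝ)| := (abs_nonneg _).trans (le_max_left _ _)
  have hMsq : max |(j 0 : ℝ)| |(j 1 : ℝ)| ^ 2 ≤ nsq j := by
    unfold nsq
    rcases le_total |(j 0 : ℝ)| |(j 1 : ℝ)| with h | h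
    · rw [max_eq_right h, sq_abs]
      nlinarith [sq_nonneg (j 0 : ℝ)]
    · rw [max_eq_left h, sq_abs]
      nlinarith [sq_nonneg (j 1 : ℝ)]
  have hpos : 0 < nsq j := by
    have : 0 < max |(j 0 : ℝ)| |(j 1 : ℝ)| := lt_of_lt_of_le hm hmax
    exact lt_of_lt_of_le (by positivity) hMsq
  have h0 : m * |(j 0 : ℝ)| ≤ nsq j := by
    calc m * |(j 0 : ℝ)| ≤ max |(j 0 : ℝ)| |(j 1 : ℝ)| * max |(j 0 : ℝ)| |(j 1 : ℝ)| :=
          mul_le_mul hmax (le_max_left _ _) (abs_nonneg _) hM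
      _ = max |(j 0 : ℝ)| |(j 1 : ℝ)| ^ 2 := by ring
      _ ≤ _ := hMsq
  have h1 : m * |(j 1 : ℝ)| ≤ nsq j := by
    calc m * |(j 1 : ℝ)| ≤ max |(j 0 : ℝ)| |(j 1 : ℝ)| * max |(j 0 : ℝ)| |(j 1 : ℝ)| :=
          mul_le_mul hmax (le_max_right _ _) (abs_nonneg _) hM
      _ = max |(j 0 : ℝ)| |(j 1 : ℝ)| ^ 2 := by ring
      _ ≤ _ := hMsq
  unfold mu
  rw [abs_div, abs_of_pos hpos, div_le_div_iff₀ hpos hm]
  have h2 := abs_cr_le k j
  have h3 : |cr k j| * m ≤ (|(k 1 : ℝ)| * |(j 0 : ℝ)| + |(k 0 : ℝ)| * |(j 1 : ℝ)|) * m :=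
    mul_le_mul_of_nonneg_right h2 hm.le
  have h4 : |(k 1 : ℝ)| * (m * |(j 0 : ℝ)|) ≤ |(k 1 : ℝ)| * nsq j :=
    mul_le_mul_of_nonneg_left h0 (abs_nonneg _)
  have h5 : |(k 0 : ℝ)| * (m * |(j 1 : ℝ)|) ≤ |(k 0 : ℝ)| * nsq j :=
    mul_le_mul_of_nonneg_left h1 (abs_nonneg _)
  unfold l1
  linarith

theorem abs_mu_le (k j : Fr) : |mu k j| ≤ l1 k := by
  by_cases hj : j = 0
  · subst hj
    rw [mu_zero_right, abs_zero]
    exact l1_nonneg k
  · have h : (1 : ℝ) ≤ |(j 0 : ℝ)| ∨ (1 : ℝ) ≤ |(j 1 : ℝ)| := by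
      by_contra h
      push Not at h
      apply hj
      have h0 : |j 0| < 1 := by exact_mod_cast h.1
      have h1 : |j 1| < 1 := by exact_mod_cast h.2
      rw [Int.abs_lt_one_iff] at h0 h1
      ext i
      fin_cases i
      · exact h0
      · exact h1
    have := abs_mu_le_div k j 1 one_pos h
    simpa using this

/-- the square sum is at most `C` -/
def SqLe (a : Fr → ℂ) (C : ℝ) : Prop := ∀ S : Finset Fr, ∑ k ∈ S, ‖a k‖ ^ 2 ≤ C

theorem SqLe.nonneg {a : Fr → ℂ} {C : ℝ} (h : SqLe a C) : 0 ≤ C := by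
  have := h ∅
  simpa using this

theorem SqLe.apply_le {a : Fr → ℂ} {C : ℝ} (h : SqLe a C) (k : Fr) : ‖a k‖ ^ 2 ≤ C := by
  have := h {k}
  simpa using this

theorem SqLe.summable {a : Fr → ℂ} {C : ℝ} (h : SqLe a C) : Summable (fun k => ‖a k‖ ^ 2) :=
  summable_of_sum_le (fun _ => sq_nonneg _) h

theorem SqLe.tsum_le {a : Fr → ℂ} {C : ℝ} (h : SqLe a C) : ∑' k, ‖a k‖ ^ 2 ≤ C :=
  Real.tsum_le_of_sum_le (fun _ => sq_nonneg _) h

theorem SqLe.refl_sub {a : Fr → ℂ} {C : ℝ} (h : SqLe a C) (k : Fr) :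
    SqLe (fun j => a (k - j)) C := by
  classical
  intro S
  have := h (S.image (fun j => k - j))
  rw [Finset.sum_image (fun x _ y _ hxy => by simpa using hxy)] at this
  exact this

theorem SqLe.of_tendsto {α : Type*} {l : Filter α} [l.NeBot] {a : α → Fr → ℂ} {a' : Fr → ℂ}
    {C : ℝ} (h : ∀ᶠ i in l, SqLe (a i) C) (h1 : ∀ j, Tendsto (fun i => a i j) l (𝓝 (a' j))) :
    SqLe a' C := by
  intro S
  have h2 : Tendsto (fun i => ∑ k ∈ S, ‖a i k‖ ^ 2) l (𝓝 (∑ k ∈ S, ‖a' k‖ ^ 2)) :=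
    tendsto_finsetSum _ (fun k _ => ((h1 k).norm).pow 2)
  exact le_of_tendsto h2 (h.mono (fun i hi => hi S))

/-- the bilinear term -/
noncomputable def NN (a b : Fr → ℂ) (k : Fr) : ℂ := ∑' j, (mu k j : ℂ) * a j * b (k - j)

theorem norm_term_le (a b : Fr → ℂ) (k j : Fr) (c : ℝ) (hc : |mu k j| ≤ c) :
    ‖(mu k j : ℂ) * a j * b (k - j)‖ ≤ c * ((‖a j‖ ^ 2 + ‖b (k - j)‖ ^ 2) / 2) := by
  rw [norm_mul, norm_mul, Complex.norm_real, Real.norm_eq_abs, mul_assoc]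
  have h1 : ‖a j‖ * ‖b (k - j)‖ ≤ (‖a j‖ ^ 2 + ‖b (k - j)‖ ^ 2) / 2 := by
    nlinarith [sq_nonneg (‖a j‖ - ‖b (k - j)‖)]
  exact mul_le_mul hc h1 (by positivity) ((abs_nonneg _).trans hc)

theorem summable_maj {a b : Fr → ℂ} {C : ℝ} (ha : SqLe a C) (hb : SqLe b C) (k : Fr) (c : ℝ) :
    Summable (fun j => c * ((‖a j‖ ^ 2 + ‖b (k - j)‖ ^ 2) / 2)) :=
  ((ha.summable.add (hb.refl_sub k).summable).div_const 2).mul_left c

theorem tsum_maj_le {a b : Fr → ℂ} {C : ℝ} (ha : SqLe a C) (hb : SqLe b C) (k : Fr) (c : ℝ)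
    (hc : 0 ≤ c) : ∑' j, c * ((‖a j‖ ^ 2 + ‖b (k - j)‖ ^ 2) / 2) ≤ c * C := by
  rw [tsum_mul_left]
  refine mul_le_mul_of_nonneg_left ?_ hc
  rw [tsum_div_const, Summable.tsum_add ha.summable (hb.refl_sub k).summable]
  have h1 := ha.tsum_le
  have h2 := (hb.refl_sub k).tsum_le
  linarith

theorem summable_term {a b : Fr → ℂ} {C : ℝ} (ha : SqLe a C) (hb : SqLe b C) (k : Fr) :
    Summable (fun j => (mu k j : ℂ) * a j * b (k - j)) :=
  Summable.of_norm_bounded (summable_maj ha hb k (l1 k))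
    (fun j => norm_term_le a b k j _ (abs_mu_le k j))

theorem norm_NN_le {a b : Fr → ℂ} {C : ℝ} (ha : SqLe a C) (hb : SqLe b C) (k : Fr) :
    ‖NN a b k‖ ≤ l1 k * C := by
  refine (tsum_of_norm_bounded (summable_maj ha hb k (l1 k)).hasSum
    (fun j => norm_term_le a b k j _ (abs_mu_le k j))).trans ?_
  exact tsum_maj_le ha hb k _ (l1_nonneg k)

/-- the box of frequencies `|j_i| ≤ m` -/
noncomputable def box (m : ℕ) : Finset Fr := Fintype.piFinset (fun _ => Finset.Icc (-(m : ℤ)) m)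

theorem mem_box (m : ℕ) (j : Fr) : j ∈ box m ↔ ∀ i, |j i| ≤ m := by
  unfold box
  simp [Fintype.mem_piFinset, abs_le]

theorem not_mem_box {m : ℕ} {j : Fr} (h : j ∉ box m) :
    (m : ℝ) ≤ |(j 0 : ℝ)| ∨ (m : ℝ) ≤ |(j 1 : ℝ)| := by
  rw [mem_box] at h
  push Not at h
  obtain ⟨i, hi⟩ := h
  fin_cases i
  · left
    have : (m : ℤ) ≤ |j 0| := hi.le
    exact_mod_cast this
  · right
    have : (m : ℤ) ≤ |j 1| := hi.le
    exact_mod_cast this

theorem NN_tail {a b : Fr → ℂ} {C : ℝ} (ha : SqLe a C) (hb : SqLe b C) (k : Fr) (m : ℕ)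
    (hm : 0 < m) : ‖NN a b k - ∑ j ∈ box m, (mu k j : ℂ) * a j * b (k - j)‖ ≤ l1 k / m * C := by
  classical
  have hm' : (0 : ℝ) < m := by exact_mod_cast hm
  have h1 : ∑ j ∈ box m, (mu k j : ℂ) * a j * b (k - j) =
      ∑' j, if j ∈ box m then (mu k j : ℂ) * a j * b (k - j) else 0 := by
    rw [tsum_eq_sum (s := box m)]
    · exact Finset.sum_congr rfl (fun j hj => by rw [if_pos hj])
    · intro j hj
      rw [if_neg hj]
  have hsum : Summable (fun j => if j ∈ box m then (mu k j : ℂ) * a j * b (k - j) else 0) :=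
    summable_of_ne_finset_zero (s := box m) (fun j hj => by rw [if_neg hj])
  rw [h1]
  unfold NN
  rw [← (summable_term ha hb k).tsum_sub hsum]
  refine (tsum_of_norm_bounded (summable_maj ha hb k (l1 k / m)).hasSum (fun j => ?_)).trans
    (tsum_maj_le ha hb k _ (div_nonneg (l1_nonneg k) hm'.le))
  by_cases hj : j ∈ box m
  · rw [if_pos hj, sub_self, norm_zero]
    have := l1_nonneg k
    positivity
  · rw [if_neg hj, sub_zero]
    exact norm_term_le a b k j _ (abs_mu_le_div k j m hm' (not_mem_box hj))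

/-- Continuity of the bilinear term under coefficientwise convergence with bounded square sums. -/
theorem NN_tendsto {α : Type*} {l : Filter α} {a b : α → Fr → ℂ} {a' b' : Fr → ℂ} {C : ℝ}
    (ha : ∀ᶠ i in l, SqLe (a i) C) (hb : ∀ᶠ i in l, SqLe (b i) C) (ha' : SqLe a' C)
    (hb' : SqLe b' C) (h1 : ∀ j, Tendsto (fun i => a i j) l (𝓝 (a' j)))
    (h2 : ∀ j, Tendsto (fun i => b i j) l (𝓝 (b' j))) (k : Fr) :
    Tendsto (fun i => NN (a i) (b i) k) l (𝓝 (NN a' b' k)) := by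
  rw [Metric.tendsto_nhds]
  intro ε hε
  have hlim : Tendsto (fun m : ℕ => l1 k / m * C) atTop (𝓝 0) := by
    have := (tendsto_const_div_atTop_nhds_zero_nat (l1 k)).mul_const C
    simpa using this
  obtain ⟨m, hm0, hm⟩ : ∃ m : ℕ, 0 < m ∧ l1 k / m * C < ε / 3 := by
    have h := (hlim.eventually (gt_mem_nhds (show (0 : ℝ) < ε / 3 by positivity))).and
      (eventually_gt_atTop 0)
    obtain ⟨m, h3, h4⟩ := h.exists
    exact ⟨m, h4, h3⟩
  have hfin : Tendsto (fun i => ∑ j ∈ box m, (mu k j : ℂ) * a i j * b i (k - j)) l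
      (𝓝 (∑ j ∈ box m, (mu k j : ℂ) * a' j * b' (k - j))) :=
    tendsto_finsetSum _ (fun j _ => ((h1 j).const_mul _).mul (h2 (k - j)))
  have hfin' := (Metric.tendsto_nhds.1 hfin) (ε / 3) (by positivity)
  filter_upwards [ha, hb, hfin'] with i hai hbi hi
  have e1 := NN_tail hai hbi k m hm0
  have e2 := NN_tail ha' hb' k m hm0
  rw [dist_eq_norm] at hi ⊢
  calc ‖NN (a i) (b i) k - NN a' b' k‖
      = ‖(NN (a i) (b i) k - ∑ j ∈ box m, (mu k j : ℂ) * a i j * b i (k - j)) +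
        (∑ j ∈ box m, (mu k j : ℂ) * a i j * b i (k - j) -
          ∑ j ∈ box m, (mu k j : ℂ) * a' j * b' (k - j)) -
        (NN a' b' k - ∑ j ∈ box m, (mu k j : ℂ) * a' j * b' (k - j))‖ := by
        congr 1
        ring
    _ ≤ ‖(NN (a i) (b i) k - ∑ j ∈ box m, (mu k j : ℂ) * a i j * b i (k - j)) +
        (∑ j ∈ box m, (mu k j : ℂ) * a i j * b i (k - j) -
          ∑ j ∈ box m, (mu k j : ℂ) * a' j * b' (k - j))‖ +
        ‖NN a' b' k - ∑ j ∈ box m, (mu k j : ℂ) * a' j * b' (k - j)‖ := norm_sub_le _ _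
    _ ≤ (‖NN (a i) (b i) k - ∑ j ∈ box m, (mu k j : ℂ) * a i j * b i (k - j)‖ +
        ‖∑ j ∈ box m, (mu k j : ℂ) * a i j * b i (k - j) -
          ∑ j ∈ box m, (mu k j : ℂ) * a' j * b' (k - j)‖) +
        ‖NN a' b' k - ∑ j ∈ box m, (mu k j : ℂ) * a' j * b' (k - j)‖ := by
        gcongr
        exact norm_add_le _ _
    _ < ε := by linarith

/-- the bilinear term with finitely supported second argument -/
theorem NN_eq_sum (a b : Fr → ℂ) (k : Fr) (S : Finset Fr) (hb : ∀ l ∉ S, b l = 0) :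
    NN a b k = ∑ l ∈ S, (mu k (k - l) : ℂ) * a (k - l) * b l := by
  unfold NN
  rw [← (Equiv.subLeft k).tsum_eq, tsum_eq_sum (s := S)]
  · refine Finset.sum_congr rfl (fun l _ => ?_)
    simp
  · intro l hl
    simp [hb l hl]

end Pool.Agent.Q64.Bous
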