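import Pool.Agent.Q64.Bous.Fun

/-!
# The semi-dissipative Boussinesq system on `ℝ²/(Lℤ²)`: definitions

Functions on the torus `ℝ²/(Lℤ²)` are written in the rescaled variable `y = x / L`, that is, as
functions on `T2 = (ℝ/ℤ)²` with its Haar probability measure `μT`. The trigonometric monomial
`e_k(x) = exp (2 π i k · x / L)` is `mFourier k` in this variable and its gradient in `x` is
`(2 π i / L) k e_k`.
-/

set_option autoImplicit false

open Set Filter Topology MeasureTheory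
open scoped ContDiff

namespace Pool.Agent.Q64.Bous

open UnitAddTorus (mFourier)

/-- The space `L²` of real square integrable functions on the torus. -/
def L2R : Type := ↥(Lp ℝ 2 μT)

noncomputable instance : NormedAddCommGroup L2R :=
  (inferInstance : NormedAddCommGroup ↥(Lp ℝ 2 μT))

noncomputable instance : InnerProductSpace ℝ L2R :=
  (inferInstance : InnerProductSpace ℝ ↥(Lp ℝ 2 μT))

/-- An element of `L²` as an element of Mathlib's `Lp`. -/
def L2R.toLp (f : L2R) : ↥(Lp ℝ 2 μT) := f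

/-- The function (a representative of the class) of an element of `L²`. -/
noncomputable def L2R.fn (f : L2R) : T2 → ℝ := ⇑f.toLp

/-- `∫ f e_k`, the pairing of a real function on the torus with the monomial
`e_k(x) = exp (2 π i k · x / L)`. -/
noncomputable def pair (f : T2 → ℝ) (k : Fr) : ℂ := ∫ y, ((f y : ℝ) : ℂ) * mFourier k y ∂μT

/-- Mean-free functions. -/
def MeanFree (f : L2R) : Prop := ∫ y, f.fn y ∂μT = 0

/-- Weakly divergence-free fields: `∫ u · ∇ e_k = 0` for every `k`. -/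
def DivFree (u : Fin 2 → L2R) : Prop := ∀ k : Fr, ∑ i, (k i : ℂ) * pair (u i).fn k = 0

/-- The space `H` of mean-free, divergence-free square integrable fields. -/
def MemH (u : Fin 2 → L2R) : Prop := (∀ i, MeanFree (u i)) ∧ DivFree u

/-- `∫ |∇ u|²` (with the normalised measure), by Parseval's identity; the field `u` belongs to `V`
if and only if it belongs to `H` and this is finite. -/
noncomputable def gradSq (L : ℝ) (u : Fin 2 → L2R) : ENNReal :=
  ∑' k : Fr, ENNReal.ofReal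
    ((2 * Real.pi / L) ^ 2 * ((k 0 : ℝ) ^ 2 + (k 1 : ℝ) ^ 2) * ∑ i, ‖pair (u i).fn k‖ ^ 2)

/-- Test functions of time: smooth, with compact support in the interior of `I`. -/
def IsTest (I : Set ℝ) (ψ : ℝ → ℝ) : Prop :=
  ContDiff ℝ ∞ ψ ∧ HasCompactSupport ψ ∧ tsupport ψ ⊆ interior I

/-- `∫ u · (a e_k)` -/
noncomputable def velPair (u : Fin 2 → L2R) (a : Fin 2 → ℂ) (k : Fr) : ℂ :=
  ∑ i, a i * pair (u i).fn k

/-- `∫ (u ⊗ u) : ∇(a e_k) = ∑_{i,j} ∫ u_i u_j ∂_j (a_i e_k)` -/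
noncomputable def fluxPair (L : ℝ) (u : Fin 2 → L2R) (a : Fin 2 → ℂ) (k : Fr) : ℂ :=
  2 * Real.pi * Complex.I / L * ∑ i, ∑ j, a i * (k j : ℂ) * pair (fun y => (u i).fn y * (u j).fn y) k

/-- `∫ u · Δ(a e_k)` -/
noncomputable def lapPair (L : ℝ) (u : Fin 2 → L2R) (a : Fin 2 → ℂ) (k : Fr) : ℂ :=
  -((2 * Real.pi / L) ^ 2 * ((k 0 : ℂ) ^ 2 + (k 1 : ℂ) ^ 2)) * velPair u a k

/-- `∫ θ u · ∇ e_k` -/
noncomputable def heatPair (L : ℝ) (u : Fin 2 → L2R) (θ : L2R) (k : Fr) : ℂ :=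
  2 * Real.pi * Complex.I / L * ∑ j, (k j : ℂ) * pair (fun y => θ.fn y * (u j).fn y) k

/-- The momentum equation `∂ₜu + (u·∇)u + ∇p = νΔu + θ(0,g)` in the sense of distributions in the
interior of `I`, tested against the divergence-free trigonometric fields `a e_k`, `a · k = 0`. -/
def Momentum (L ν g : ℝ) (I : Set ℝ) (u : ℝ → Fin 2 → L2R) (θ : ℝ → L2R) : Prop :=
  ∀ (k : Fr) (a : Fin 2 → ℂ), ∑ i, a i * (k i : ℂ) = 0 → ∀ ψ : ℝ → ℝ, IsTest I ψ →
    ∫ t, (((deriv ψ t : ℝ) : ℂ) * velPair (u t) a k + (ψ t : ℂ) *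
      (fluxPair L (u t) a k + ν * lapPair L (u t) a k + g * a 1 * pair (θ t).fn k)) = 0

/-- The transport equation `∂ₜθ + ∇·(uθ) = 0` in the sense of distributions in the interior of
`I`, tested against the monomials `e_k`. -/
def Transport (L : ℝ) (I : Set ℝ) (u : ℝ → Fin 2 → L2R) (θ : ℝ → L2R) : Prop :=
  ∀ (k : Fr) (ψ : ℝ → ℝ), IsTest I ψ →
    ∫ t, (((deriv ψ t : ℝ) : ℂ) * pair (θ t).fn k + (ψ t : ℂ) * heatPair L (u t) (θ t) k) = 0

/-- Solutions `(u, θ)` of the semi-dissipative Boussinesq system on a time interval `I`: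
`u ∈ C_w(I; H) ∩ L²_loc(I; V)`, `θ ∈ C_w(I; L²)`, and the momentum and transport equations hold in
the sense of distributions in the interior of `I`. -/
structure IsSolution (L ν g : ℝ) (I : Set ℝ) (u : ℝ → Fin 2 → L2R) (θ : ℝ → L2R) : Prop where
  memH : ∀ t ∈ I, MemH (u t)
  meanFree : ∀ t ∈ I, MeanFree (θ t)
  weak_u : ∀ (i : Fin 2) (φ : L2R), ContinuousOn (fun t => inner ℝ φ (u t i)) I
  weak_θ : ∀ φ : L2R, ContinuousOn (fun t => inner ℝ φ (θ t)) I
  memV : ∀ a b : ℝ, Icc a b ⊆ I → ∫⁻ t in Icc a b, gradSq L (u t) < ⊤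
  momentum : Momentum L ν g I u θ
  transport : Transport L I u θ

/-- The set `𝒜` of all `(u₀, θ₀) ∈ H × L²` through which there is a solution on `ℝ` that is bounded
in `H × L²`. -/
def Attractor (L ν g : ℝ) : Set ((Fin 2 → L2R) × L2R) :=
  {p | MemH p.1 ∧ MeanFree p.2 ∧ ∃ (u : ℝ → Fin 2 → L2R) (θ : ℝ → L2R),
    IsSolution L ν g univ u θ ∧ u 0 = p.1 ∧ θ 0 = p.2 ∧
      ∃ C : ℝ, ∀ t, (∀ i, ‖u t i‖ ≤ C) ∧ ‖θ t‖ ≤ C}

/-- The graph of the solution operator `S(t)`: some solution on `[0, ∞)` starts at `p` and has the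
value `q` at time `t`. -/
def Evolves (L ν g t : ℝ) (p q : (Fin 2 → L2R) × L2R) : Prop :=
  ∃ (u : ℝ → Fin 2 → L2R) (θ : ℝ → L2R), IsSolution L ν g (Ici 0) u θ ∧
    (u 0, θ 0) = p ∧ (u t, θ t) = q

/-- Weak convergence of sequences in `H × L²`. -/
def WeakLim (r : ℕ → (Fin 2 → L2R) × L2R) (q : (Fin 2 → L2R) × L2R) : Prop :=
  (∀ (i : Fin 2) (φ : L2R),
    Tendsto (fun n => inner ℝ φ ((r n).1 i)) atTop (𝓝 (inner ℝ φ (q.1 i)))) ∧
  ∀ φ : L2R, Tendsto (fun n => inner ℝ φ (r n).2) atTop (𝓝 (inner ℝ φ q.2))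

/-- The union of the weak omega-limit sets of the bounded subsets of `H × L²`: all weak limits of
`S(tₙ) pₙ` with `tₙ → ∞` and a bounded sequence `pₙ` of initial data. -/
def OmegaAttractor (L ν g : ℝ) : Set ((Fin 2 → L2R) × L2R) :=
  {q | MemH q.1 ∧ MeanFree q.2 ∧ ∃ (s : ℕ → ℝ) (p r : ℕ → (Fin 2 → L2R) × L2R),
    (∀ n, 0 ≤ s n) ∧ Tendsto s atTop atTop ∧
    (∃ C : ℝ, ∀ n, (∀ i, ‖(p n).1 i‖ ≤ C) ∧ ‖(p n).2‖ ≤ C) ∧
    (∀ n, Evolves L ν g (s n) (p n) (r n)) ∧ WeakLim r q}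

end Pool.Agent.Q64.Bous
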