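import Pool.Agent.Q64.Bous.Coef

/-!
# Real `L²` functions on the torus and their Fourier coefficients
-/

set_option autoImplicit false

open Set Filter Topology MeasureTheory
open scoped ComplexConjugate ENNReal

namespace Pool.Agent.Q64.Bous

open UnitAddTorus (mFourier mFourier_neg mFourier_add mFourier_zero mFourierBasis
  mFourierBasis_repr)

/-- The torus `ℝ²/ℤ²`. -/
abbrev T2 := UnitAddTorus (Fin 2)

/-- The Haar probability measure of the torus. -/
noncomputable abbrev μT : Measure T2 :=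
  Measure.pi (fun _ : Fin 2 => (AddCircle.haarAddCircle : Measure UnitAddCircle))

/-- Real square integrable functions on the torus. -/
noncomputable abbrev LpR := Lp ℝ 2 μT

/-- Complex square integrable functions on the torus. -/
noncomputable abbrev L2C := Lp ℂ 2 μT

/-- The Fourier basis. -/
noncomputable def bas : HilbertBasis Fr ℂ L2C := mFourierBasis

theorem bas_repr (f : L2C) (k : Fr) : bas.repr f k = ∫ y, mFourier (-k) y * f y ∂μT :=
  mFourierBasis_repr f k

theorem inner_bas (f : L2C) (k : Fr) : inner ℂ (bas k) f = ∫ y, mFourier (-k) y * f y ∂μT := by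
  rw [← bas_repr, HilbertBasis.repr_apply_apply]

theorem norm_mF (k : Fr) (y : T2) : ‖mFourier k y‖ ≤ 1 := by
  refine ((mFourier k).norm_coe_le_norm y).trans ?_
  rw [UnitAddTorus.mFourier_norm]

theorem aesm_mF (k : Fr) : AEStronglyMeasurable (fun y : T2 => mFourier k y) μT :=
  (mFourier k).continuous.aestronglyMeasurable

theorem memLp_mF_mul (k : Fr) {f : T2 → ℂ} (hf : MemLp f 2 μT) :
    MemLp (fun y => mFourier k y * f y) 2 μT :=
  hf.of_le ((aesm_mF k).mul hf.1) (ae_of_all _ (fun y => by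
    rw [norm_mul]
    calc ‖mFourier k y‖ * ‖f y‖ ≤ 1 * ‖f y‖ :=
          mul_le_mul_of_nonneg_right (norm_mF k y) (norm_nonneg _)
      _ = ‖f y‖ := one_mul _))

theorem memLp_conj {f : T2 → ℂ} (hf : MemLp f 2 μT) : MemLp (fun y => conj (f y)) 2 μT :=
  hf.of_le (Complex.continuous_conj.comp_aestronglyMeasurable hf.1)
    (ae_of_all _ (fun y => by rw [Complex.norm_conj]))

/-- The Fourier coefficient. -/
noncomputable def fc (f : T2 → ℂ) (k : Fr) : ℂ := ∫ y, mFourier (-k) y * f y ∂μT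

theorem fc_congr {f g : T2 → ℂ} (h : f =ᵐ[μT] g) (k : Fr) : fc f k = fc g k := by
  unfold fc
  apply integral_congr_ae
  filter_upwards [h] with y hy
  rw [hy]

/-- Fourier coefficients of a product. -/
theorem fc_mul {f g : T2 → ℂ} (hf : MemLp f 2 μT) (hg : MemLp g 2 μT) (k : Fr) :
    fc (fun y => f y * g y) k = ∑' j, fc f j * fc g (k - j) := by
  set F : L2C := hf.toLp f with hF
  have hX' : MemLp (fun y => mFourier k y * conj (g y)) 2 μT := memLp_mF_mul k (memLp_conj hg)
  set X : L2C := hX'.toLp _ with hX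
  have h := bas.tsum_inner_mul_inner X F
  have e1 : ∀ j, inner ℂ (bas j) F = fc f j := by
    intro j
    rw [inner_bas]
    exact fc_congr hf.coeFn_toLp j
  have e2 : ∀ j, inner ℂ X (bas j) = fc g (k - j) := by
    intro j
    rw [← inner_conj_symm, inner_bas]
    have : ∫ y, mFourier (-j) y * X y ∂μT = ∫ y, mFourier (-j) y * (mFourier k y * conj (g y)) ∂μT :=
      fc_congr hX'.coeFn_toLp j
    rw [this, ← integral_conj]
    unfold fc
    congr 1
    funext y
    rw [map_mul, map_mul, Complex.conj_conj, ← mFourier_neg, ← mFourier_neg, neg_neg, ← mul_assoc,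
      ← mFourier_add]
    congr 3
    abel
  have e3 : inner ℂ X F = fc (fun y => f y * g y) k := by
    rw [L2.inner_def]
    unfold fc
    apply integral_congr_ae
    filter_upwards [hX'.coeFn_toLp, hf.coeFn_toLp] with y h1 h2
    rw [hX, hF, h1, h2, RCLike.inner_apply, map_mul, Complex.conj_conj, ← mFourier_neg]
    ring
  rw [← e3, ← h]
  refine tsum_congr (fun j => ?_)
  rw [e1, e2, mul_comm]

/-- complex valued synthesis of a coefficient family -/
noncomputable def synth (c : Fr → ℂ) : L2C := by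
  classical
  exact if h : Memℓp c 2 then bas.repr.symm ⟨c, h⟩ else 0

theorem memℓp_of_sqLe {c : Fr → ℂ} {C : ℝ} (h : SqLe c C) : Memℓp c 2 := by
  refine memℓp_gen ?_
  simpa using h.summable

theorem bas_repr_synth {c : Fr → ℂ} (h : Memℓp c 2) (k : Fr) : bas.repr (synth c) k = c k := by
  unfold synth
  rw [dif_pos h, LinearIsometryEquiv.apply_symm_apply]

theorem fc_synth {c : Fr → ℂ} (h : Memℓp c 2) (k : Fr) : fc (synth c) k = c k := by
  rw [← bas_repr_synth h, bas_repr]
  rfl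

theorem L2C_ext {f g : L2C} (h : ∀ k, fc f k = fc g k) : f = g := by
  apply bas.repr.injective
  ext k
  rw [bas_repr, bas_repr]
  exact h k

theorem norm_synth_sq {c : Fr → ℂ} {C : ℝ} (h : SqLe c C) : ‖synth c‖ ^ 2 ≤ C := by
  have hm := memℓp_of_sqLe h
  unfold synth
  rw [dif_pos hm, LinearIsometryEquiv.norm_map]
  have h1 := lp.norm_rpow_eq_tsum (p := 2) (by norm_num) (⟨c, hm⟩ : lp (fun _ : Fr => ℂ) 2)
  simp only [ENNReal.toReal_ofNat, Real.rpow_ofNat] at h1
  rw [h1]
  exact h.tsum_le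

/-- the real function with the given (symmetric) Fourier coefficients -/
noncomputable def toL2 (c : Fr → ℂ) : LpR := Complex.reCLM.compLp (synth c)

theorem conj_synth {c : Fr → ℂ} (h : Memℓp c 2) (hs : ∀ k, c (-k) = conj (c k)) :
    ∀ᵐ y ∂μT, conj (synth c y) = synth c y := by
  have hm := Lp.memLp (synth c)
  have hm' := memLp_conj hm
  have : hm'.toLp _ = synth c := by
    apply L2C_ext
    intro k
    rw [fc_congr hm'.coeFn_toLp k, fc_synth h]
    have h1 : fc (fun y => conj (synth c y)) k = conj (fc (synth c) (-k)) := by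
      unfold fc
      rw [← integral_conj]
      congr 1
      funext y
      rw [map_mul, ← mFourier_neg, neg_neg]
    rw [h1, fc_synth h, hs, Complex.conj_conj]
  have h2 := hm'.coeFn_toLp
  rw [this] at h2
  filter_upwards [h2] with y hy
  exact hy.symm

theorem toL2_ofReal {c : Fr → ℂ} (h : Memℓp c 2) (hs : ∀ k, c (-k) = conj (c k)) :
    ∀ᵐ y ∂μT, ((toL2 c y : ℝ) : ℂ) = synth c y := by
  filter_upwards [conj_synth h hs, Complex.reCLM.coeFn_compLp (synth c)] with y h1 h2
  unfold toL2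
  rw [h2]
  exact Complex.conj_eq_iff_re.1 h1

/-- complexification of a real function -/
noncomputable def cx (f : LpR) : T2 → ℂ := fun y => ((f y : ℝ) : ℂ)

theorem memLp_cx (f : LpR) : MemLp (cx f) 2 μT := (Lp.memLp f).ofReal

theorem cx_toL2 {c : Fr → ℂ} (h : Memℓp c 2) (hs : ∀ k, c (-k) = conj (c k)) :
    cx (toL2 c) =ᵐ[μT] synth c := toL2_ofReal h hs

theorem fc_toL2 {c : Fr → ℂ} (h : Memℓp c 2) (hs : ∀ k, c (-k) = conj (c k)) (k : Fr) :
    fc (cx (toL2 c)) k = c k := by
  rw [fc_congr (cx_toL2 h hs), fc_synth h]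

theorem norm_toL2_sq {c : Fr → ℂ} {C : ℝ} (h : SqLe c C) : ‖toL2 c‖ ^ 2 ≤ C := by
  refine le_trans ?_ (norm_synth_sq h)
  have h1 : ‖toL2 c‖ ≤ ‖synth c‖ := by
    unfold toL2
    refine (Complex.reCLM.norm_compLp_le (synth c)).trans ?_
    rw [Complex.reCLM_norm, one_mul]
  exact pow_le_pow_left₀ (norm_nonneg _) h1 2

theorem LpR_ext {f g : LpR} (h : ∀ k, fc (cx f) k = fc (cx g) k) : f = g := by
  have h1 : (memLp_cx f).toLp _ = (memLp_cx g).toLp _ := by
    apply L2C_ext
    intro k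
    rw [fc_congr (memLp_cx f).coeFn_toLp, fc_congr (memLp_cx g).coeFn_toLp, h]
  have h2 := (memLp_cx f).coeFn_toLp
  have h3 := (memLp_cx g).coeFn_toLp
  rw [h1] at h2
  apply Lp.ext
  filter_upwards [h2, h3] with y h4 h5
  rw [h4] at h5
  exact Complex.ofReal_injective h5

theorem fc_cx_neg (f : LpR) (k : Fr) : fc (cx f) (-k) = conj (fc (cx f) k) := by
  unfold fc
  rw [← integral_conj]
  congr 1
  funext y
  rw [map_mul, ← mFourier_neg, neg_neg]
  unfold cx
  rw [Complex.conj_ofReal]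

theorem sqLe_fc_cx (f : LpR) : ∃ r, SqLe (fc (cx f)) r := by
  set F : L2C := (memLp_cx f).toLp _ with hF
  have h1 : ∀ k, fc (cx f) k = bas.repr F k := by
    intro k
    rw [bas_repr]
    exact (fc_congr (memLp_cx f).coeFn_toLp k).symm
  have h2 : Summable (fun k => ‖bas.repr F k‖ ^ 2) := by
    have := (lp.memℓp (bas.repr F)).summable (by norm_num)
    simpa using this
  refine ⟨∑' k, ‖bas.repr F k‖ ^ 2, fun S => ?_⟩
  simp only [h1]
  exact h2.sum_le_tsum S (fun _ _ => sq_nonneg _)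

/-- the real inner product in terms of the complex one -/
theorem inner_toL2 (φ : LpR) {c : Fr → ℂ} (h : Memℓp c 2) (hs : ∀ k, c (-k) = conj (c k)) :
    inner ℝ φ (toL2 c) = (inner ℂ ((memLp_cx φ).toLp _) (synth c)).re := by
  rw [L2.inner_def, L2.inner_def]
  have h1 : ∫ a, inner ℂ (((memLp_cx φ).toLp _ : L2C) a) (synth c a) ∂μT =
      ∫ a, (((inner ℝ (φ a) (toL2 c a) : ℝ)) : ℂ) ∂μT := by
    apply integral_congr_ae
    filter_upwards [(memLp_cx φ).coeFn_toLp, toL2_ofReal h hs] with y h1 h2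
    rw [h1, ← h2, RCLike.inner_apply]
    unfold cx
    rw [Complex.conj_ofReal]
    simp
  rw [h1, integral_complex_ofReal, Complex.ofReal_re]

theorem weak_tendsto {ι H α : Type*} [NormedAddCommGroup H] [InnerProductSpace ℂ H]
    (b : HilbertBasis ι ℂ H) {l : Filter α} {x : α → H} {x0 : H} {C : ℝ}
    (hC : ∀ᶠ a in l, ‖x a‖ ≤ C)
    (h : ∀ i, Tendsto (fun a => inner ℂ (b i) (x a)) l (𝓝 (inner ℂ (b i) x0))) (φ : H) :
    Tendsto (fun a => inner ℂ φ (x a)) l (𝓝 (inner ℂ φ x0)) := by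
  have hspan : ∀ ψ ∈ Submodule.span ℂ (range b),
      Tendsto (fun a => inner ℂ ψ (x a)) l (𝓝 (inner ℂ ψ x0)) := by
    intro ψ hψ
    induction hψ using Submodule.span_induction with
    | mem y hy =>
      obtain ⟨i, rfl⟩ := hy
      exact h i
    | zero => simpa using tendsto_const_nhds
    | add y z _ _ hy hz =>
      simp only [inner_add_left]
      exact hy.add hz
    | smul c y _ hy =>
      simp only [inner_smul_left]
      exact hy.const_mul _
  rw [Metric.tendsto_nhds]
  intro ε hε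
  set K : ℝ := |C| + ‖x0‖ + 1 with hK
  have hK0 : 0 < K := by positivity
  have hφ : φ ∈ closure (Submodule.span ℂ (range b) : Set H) := by
    have := b.dense_span
    have h1 : φ ∈ (Submodule.span ℂ (range b)).topologicalClosure := by rw [this]; trivial
    exact h1
  obtain ⟨ψ, hψ, hψd⟩ := Metric.mem_closure_iff.1 hφ (ε / (3 * K)) (by positivity)
  rw [dist_eq_norm] at hψd
  filter_upwards [hC, (Metric.tendsto_nhds.1 (hspan ψ hψ)) (ε / 3) (by positivity)] with a ha hb
  rw [dist_eq_norm] at hb ⊢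
  have e1 : ‖inner ℂ (φ - ψ) (x a)‖ ≤ ‖φ - ψ‖ * K := by
    refine (norm_inner_le_norm _ _).trans ?_
    refine mul_le_mul_of_nonneg_left ?_ (norm_nonneg _)
    have := le_abs_self C
    have := norm_nonneg x0
    linarith
  have e2 : ‖inner ℂ (φ - ψ) x0‖ ≤ ‖φ - ψ‖ * K := by
    refine (norm_inner_le_norm _ _).trans ?_
    refine mul_le_mul_of_nonneg_left ?_ (norm_nonneg _)
    have := abs_nonneg C
    linarith
  have e3 : ‖φ - ψ‖ * K < ε / 3 := by
    calc ‖φ - ψ‖ * K < ε / (3 * K) * K := mul_lt_mul_of_pos_right hψd hK0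
      _ = ε / 3 := by field_simp
  have e4 : inner ℂ φ (x a) - inner ℂ φ x0 = inner ℂ (φ - ψ) (x a) +
      (inner ℂ ψ (x a) - inner ℂ ψ x0) - inner ℂ (φ - ψ) x0 := by
    rw [inner_sub_left, inner_sub_left]
    ring
  rw [e4]
  calc ‖inner ℂ (φ - ψ) (x a) + (inner ℂ ψ (x a) - inner ℂ ψ x0) - inner ℂ (φ - ψ) x0‖
      ≤ ‖inner ℂ (φ - ψ) (x a) + (inner ℂ ψ (x a) - inner ℂ ψ x0)‖ + ‖inner ℂ (φ - ψ) x0‖ :=
        norm_sub_le _ _
    _ ≤ ‖inner ℂ (φ - ψ) (x a)‖ + ‖inner ℂ ψ (x a) - inner ℂ ψ x0‖ + ‖inner ℂ (φ - ψ) x0‖ := by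
        gcongr
        exact norm_add_le _ _
    _ < ε := by linarith

/-- coefficientwise convergence with bounded square sums is weak convergence -/
theorem toL2_weak_tendsto {α : Type*} {l : Filter α} {c : α → Fr → ℂ} {c0 : Fr → ℂ} {C : ℝ}
    (hc : ∀ᶠ a in l, SqLe (c a) C ∧ ∀ k, c a (-k) = conj (c a k)) (hc0 : SqLe c0 C)
    (hs0 : ∀ k, c0 (-k) = conj (c0 k)) (h : ∀ k, Tendsto (fun a => c a k) l (𝓝 (c0 k)))
    (φ : LpR) : Tendsto (fun a => inner ℝ φ (toL2 (c a))) l (𝓝 (inner ℝ φ (toL2 c0))) := by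
  rw [inner_toL2 φ (memℓp_of_sqLe hc0) hs0]
  have h1 : Tendsto (fun a => (inner ℂ ((memLp_cx φ).toLp _) (synth (c a))).re) l
      (𝓝 ((inner ℂ ((memLp_cx φ).toLp _) (synth c0)).re)) := by
    refine (Complex.continuous_re.tendsto _).comp ?_
    refine weak_tendsto bas (C := Real.sqrt C) ?_ ?_ _
    · filter_upwards [hc] with a ha
      exact Real.le_sqrt_of_sq_le (norm_synth_sq ha.1)
    · intro k
      rw [← HilbertBasis.repr_apply_apply, bas_repr_synth (memℓp_of_sqLe hc0)]
      refine (h k).congr' ?_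
      filter_upwards [hc] with a ha
      rw [← HilbertBasis.repr_apply_apply, bas_repr_synth (memℓp_of_sqLe ha.1)]
  refine h1.congr' ?_
  filter_upwards [hc] with a ha
  rw [inner_toL2 φ (memℓp_of_sqLe ha.1) ha.2]

end Pool.Agent.Q64.Bous
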