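import Pool.Agent.Q64.Bous.Abs
import Pool.Agent.Q64.Bous.Coef

/-!
# The Galerkin system on a finite symmetric set of frequencies
-/

set_option autoImplicit false

open Set Filter Topology
open scoped RealInnerProductSpace ComplexConjugate

namespace Pool.Agent.Q64.Bous

variable {Λ : Finset Fr}

/-- extension by zero -/
noncomputable def ext (x : EuclideanSpace ℂ Λ) (j : Fr) : ℂ :=
  if h : j ∈ Λ then x ⟨j, h⟩ else 0

/-- symmetrization -/
noncomputable def sym (a : Fr → ℂ) (j : Fr) : ℂ := (a j + conj (a (-j))) / 2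

theorem ext_mem (x : EuclideanSpace ℂ Λ) (j : Λ) : ext x j = x j := by
  unfold ext
  simp

theorem ext_not_mem (x : EuclideanSpace ℂ Λ) {j : Fr} (h : j ∉ Λ) : ext x j = 0 := by
  unfold ext
  rw [dif_neg h]

theorem ext_add (x y : EuclideanSpace ℂ Λ) (j : Fr) : ext (x + y) j = ext x j + ext y j := by
  unfold ext
  split_ifs <;> simp

theorem ext_smul (c : ℝ) (x : EuclideanSpace ℂ Λ) (j : Fr) : ext (c • x) j = c * ext x j := by
  unfold ext
  split_ifs <;> simp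

theorem sym_neg_apply (a : Fr → ℂ) (j : Fr) : sym a (-j) = conj (sym a j) := by
  unfold sym
  rw [neg_neg, map_div₀, map_add, Complex.conj_conj, map_ofNat, add_comm]

theorem sym_ext_add (x y : EuclideanSpace ℂ Λ) (j : Fr) :
    sym (ext (x + y)) j = sym (ext x) j + sym (ext y) j := by
  unfold sym
  rw [ext_add, ext_add, map_add]
  ring

theorem sym_ext_smul (c : ℝ) (x : EuclideanSpace ℂ Λ) (j : Fr) :
    sym (ext (c • x)) j = c * sym (ext x) j := by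
  unfold sym
  rw [ext_smul, ext_smul, map_mul, Complex.conj_ofReal]
  ring

/-- the bilinear map `(a, b) ↦ P (u[sym a] · ∇ b)` -/
noncomputable def Bfun (a b : EuclideanSpace ℂ Λ) : EuclideanSpace ℂ Λ :=
  WithLp.toLp 2 (fun k : Λ => ∑ l : Λ, (mu k ((k : Fr) - l) : ℂ) * sym (ext a) ((k : Fr) - l) * b l)

theorem Bfun_apply (a b : EuclideanSpace ℂ Λ) (k : Λ) :
    Bfun a b k = ∑ l : Λ, (mu k ((k : Fr) - l) : ℂ) * sym (ext a) ((k : Fr) - l) * b l := rfl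

/-- the bilinear map as a linear map -/
noncomputable def Blin (Λ : Finset Fr) :
    EuclideanSpace ℂ Λ →ₗ[ℝ] EuclideanSpace ℂ Λ →ₗ[ℝ] EuclideanSpace ℂ Λ :=
  LinearMap.mk₂ ℝ Bfun
    (fun a a' b => by
      ext k
      simp only [PiLp.add_apply, Bfun_apply, sym_ext_add]
      rw [← Finset.sum_add_distrib]
      exact Finset.sum_congr rfl (fun l _ => by ring))
    (fun c a b => by
      ext k
      simp only [PiLp.smul_apply, Bfun_apply, sym_ext_smul, Complex.real_smul]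
      rw [Finset.mul_sum]
      exact Finset.sum_congr rfl (fun l _ => by ring))
    (fun a b b' => by
      ext k
      simp only [PiLp.add_apply, Bfun_apply]
      rw [← Finset.sum_add_distrib]
      exact Finset.sum_congr rfl (fun l _ => by ring))
    (fun c a b => by
      ext k
      simp only [PiLp.smul_apply, Bfun_apply, Complex.real_smul]
      rw [Finset.mul_sum]
      exact Finset.sum_congr rfl (fun l _ => by ring))

/-- the bilinear map as a continuous linear map -/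
noncomputable def Bcl (Λ : Finset Fr) :
    EuclideanSpace ℂ Λ →L[ℝ] EuclideanSpace ℂ Λ →L[ℝ] EuclideanSpace ℂ Λ :=
  LinearMap.toContinuousLinearMap
    ((LinearMap.toContinuousLinearMap :
      (EuclideanSpace ℂ Λ →ₗ[ℝ] EuclideanSpace ℂ Λ) ≃ₗ[ℝ] _).toLinearMap ∘ₗ Blin Λ)

theorem Bcl_apply (a b : EuclideanSpace ℂ Λ) : Bcl Λ a b = Bfun a b := rfl

/-- multiplication by a symbol -/
noncomputable def Mfun (Λ : Finset Fr) (σ : Fr → ℂ) : EuclideanSpace ℂ Λ →L[ℝ] EuclideanSpace ℂ Λ :=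
  LinearMap.toContinuousLinearMap
    { toFun := fun x => WithLp.toLp 2 (fun k : Λ => σ k * x k)
      map_add' := fun x y => by
        ext k
        simp [mul_add]
      map_smul' := fun c x => by
        ext k
        simp
        ring }

theorem Mfun_apply (σ : Fr → ℂ) (x : EuclideanSpace ℂ Λ) (k : Λ) : Mfun Λ σ x k = σ k * x k := rfl

theorem inner_eq (x y : EuclideanSpace ℂ Λ) : ⟪x, y⟫ = ∑ k, (conj (x k) * y k).re := by
  rw [PiLp.inner_apply]
  exact Finset.sum_congr rfl (fun k _ => by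
    rw [Complex.inner]
    exact congrArg Complex.re (mul_comm _ _))

theorem Bcl_skew (a b : EuclideanSpace ℂ Λ) : ⟪Bcl Λ a b, b⟫ = 0 := by
  rw [Bcl_apply, inner_eq]
  set s := sym (ext a) with hs
  have hs1 : ∀ j, conj (s j) = s (-j) := fun j => (sym_neg_apply _ _).symm
  set S : ℂ := ∑ k : Λ, ∑ l : Λ, (mu k ((k : Fr) - l) : ℂ) * s ((k : Fr) - l) * b l * conj (b k)
    with hS
  have h1 : ∑ k : Λ, (conj (Bfun a b k) * b k).re = S.re := by
    rw [hS, Complex.re_sum]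
    refine Finset.sum_congr rfl (fun k _ => ?_)
    rw [← Finset.sum_mul, ← Bfun_apply]
    rw [← Complex.conj_re]
    simp [mul_comm]
  have h2 : conj S = -S := by
    rw [hS, map_sum, ← Finset.sum_neg_distrib]
    have h3 : ∀ k : Λ, conj (∑ l : Λ, (mu k ((k : Fr) - l) : ℂ) * s ((k : Fr) - l) * b l * conj (b k))
        = ∑ l : Λ, (mu k ((k : Fr) - l) : ℂ) * s ((l : Fr) - k) * conj (b l) * b k := by
      intro k
      rw [map_sum]
      refine Finset.sum_congr rfl (fun l _ => ?_)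
      simp only [map_mul, Complex.conj_ofReal, Complex.conj_conj, hs1, neg_sub]
    rw [Finset.sum_congr rfl (fun k _ => h3 k), Finset.sum_comm]
    refine Finset.sum_congr rfl (fun k _ => ?_)
    rw [← Finset.sum_neg_distrib]
    refine Finset.sum_congr rfl (fun l _ => ?_)
    rw [mu_skew (l : Fr) k]
    push_cast
    ring
  rw [h1]
  have h4 := congrArg Complex.re h2
  simp at h4
  linarith

variable (ν κ g : ℝ)

/-- viscosity symbol -/
noncomputable def sA (k : Fr) : ℂ := ((ν * κ ^ 2 * nsq k : ℝ) : ℂ)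

/-- buoyancy symbol -/
noncomputable def sG (k : Fr) : ℂ := Complex.I * ((κ * g * k 0 : ℝ) : ℂ)

theorem energy_mode (hν : 0 < ν) {k : Fr} (hk : k ≠ 0) (w θ : ℂ) :
    2 * (conj (sG κ g k * θ - sA ν κ k * w) * w).re ≤
      -(ν * κ ^ 2) * ‖w‖ ^ 2 + g ^ 2 / ν * ‖θ‖ ^ 2 := by
  have h1 : (conj (sG κ g k * θ - sA ν κ k * w) * w).re =
      (conj (sG κ g k * θ) * w).re - ν * κ ^ 2 * nsq k * ‖w‖ ^ 2 := by
    have : conj (sA ν κ k * w) * w = ((ν * κ ^ 2 * nsq k * ‖w‖ ^ 2 : ℝ) : ℂ) := by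
      unfold sA
      rw [map_mul, Complex.conj_ofReal, mul_assoc, ← Complex.normSq_eq_conj_mul_self,
        Complex.normSq_eq_norm_sq]
      push_cast
      ring
    rw [map_sub, sub_mul, Complex.sub_re, this, Complex.ofReal_re]
  have h2 : (conj (sG κ g k * θ) * w).re ≤ |κ * g * k 0| * ‖θ‖ * ‖w‖ := by
    refine (Complex.re_le_norm _).trans ?_
    rw [norm_mul, Complex.norm_conj, norm_mul]
    unfold sG
    rw [norm_mul, Complex.norm_I, one_mul, Complex.norm_real, Real.norm_eq_abs]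
  rw [h1]
  have h3 := one_le_nsq hk
  have h4 : (k 0 : ℝ) ^ 2 ≤ nsq k := by
    unfold nsq
    nlinarith [sq_nonneg (k 1 : ℝ)]
  have h5 : 2 * (|κ * g * k 0| * ‖θ‖ * ‖w‖) ≤ ν * κ ^ 2 * (k 0 : ℝ) ^ 2 * ‖w‖ ^ 2 +
      g ^ 2 / ν * ‖θ‖ ^ 2 := by
    have e1 : ν * κ ^ 2 * (k 0 : ℝ) ^ 2 * ‖w‖ ^ 2 + g ^ 2 / ν * ‖θ‖ ^ 2 =
        (ν * (|κ * k 0| * ‖w‖)) ^ 2 / ν + (|g| * ‖θ‖) ^ 2 / ν := by
      rw [mul_pow, mul_pow, sq_abs, mul_pow, mul_pow, sq_abs]
      field_simp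
    rw [e1, ← add_div, le_div_iff₀ hν]
    have e2 : |κ * g * k 0| = |κ * k 0| * |g| := by
      rw [← abs_mul]
      congr 1
      ring
    rw [e2]
    nlinarith [sq_nonneg (ν * (|κ * k 0| * ‖w‖) - |g| * ‖θ‖)]
  have h6 : ν * κ ^ 2 * (k 0 : ℝ) ^ 2 * ‖w‖ ^ 2 ≤ ν * κ ^ 2 * nsq k * ‖w‖ ^ 2 := by
    gcongr
  have h7 : ν * κ ^ 2 * 1 * ‖w‖ ^ 2 ≤ ν * κ ^ 2 * nsq k * ‖w‖ ^ 2 := by
    gcongr
  nlinarith

theorem energy (hν : 0 < ν) (h0 : (0 : Fr) ∉ Λ) (w θ : EuclideanSpace ℂ Λ) :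
    2 * ⟪Mfun Λ (sG κ g) θ - Mfun Λ (sA ν κ) w, w⟫ ≤
      -(ν * κ ^ 2) * ‖w‖ ^ 2 + g ^ 2 / ν * ‖θ‖ ^ 2 := by
  rw [inner_eq, EuclideanSpace.norm_sq_eq, EuclideanSpace.norm_sq_eq, Finset.mul_sum,
    Finset.mul_sum, Finset.mul_sum, ← Finset.sum_add_distrib]
  refine Finset.sum_le_sum (fun k _ => ?_)
  have hk : (k : Fr) ≠ 0 := fun h => h0 (h ▸ k.2)
  rw [PiLp.sub_apply, Mfun_apply, Mfun_apply]
  exact energy_mode ν κ g hν hk (w k) (θ k)

/-- symmetrization commutes with the bilinear term -/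
theorem sym_Bfun (hΛ : ∀ k ∈ Λ, -k ∈ Λ) (a b : EuclideanSpace ℂ Λ) {k : Fr} (hk : k ∈ Λ) :
    sym (ext (Bfun a b)) k = NN (sym (ext a)) (sym (ext b)) k := by
  classical
  rw [NN_eq_sum _ _ k Λ]
  · have h1 : ∀ (k : Fr) (hk : k ∈ Λ), ext (Bfun a b) k =
        ∑ l ∈ Λ, (mu k (k - l) : ℂ) * sym (ext a) (k - l) * ext b l := by
      intro k hk
      rw [← Finset.sum_coe_sort Λ (fun l => (mu k (k - l) : ℂ) * sym (ext a) (k - l) * ext b l)]
      have := ext_mem (Bfun a b) ⟨k, hk⟩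
      simp only at this
      rw [this, Bfun_apply]
      refine Finset.sum_congr rfl (fun l _ => ?_)
      rw [ext_mem]
    have h2 : conj (ext (Bfun a b) (-k)) =
        ∑ l ∈ Λ, (mu k (k - l) : ℂ) * sym (ext a) (k - l) * conj (ext b (-l)) := by
      rw [h1 (-k) (hΛ k hk), map_sum]
      refine Finset.sum_nbij' (fun l => -l) (fun l => -l) hΛ hΛ (fun _ _ => neg_neg _)
        (fun _ _ => neg_neg _) (fun l _ => ?_)
      rw [map_mul, map_mul, Complex.conj_ofReal, ← sym_neg_apply]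
      have e1 : -k - l = -(k - -l) := by abel
      rw [e1, mu_neg_neg, neg_neg, neg_neg]
    unfold sym at h1 h2 ⊢
    rw [h1 k hk, h2, ← Finset.sum_add_distrib, Finset.sum_div]
    refine Finset.sum_congr rfl (fun l _ => ?_)
    ring
  · intro l hl
    unfold sym
    have hl' : -l ∉ Λ := fun h => hl (by simpa using hΛ _ h)
    rw [ext_not_mem _ hl, ext_not_mem _ hl']
    simp

theorem sym_Mfun (hΛ : ∀ k ∈ Λ, -k ∈ Λ) (σ : Fr → ℂ) (hσ : ∀ k, σ (-k) = conj (σ k))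
    (b : EuclideanSpace ℂ Λ) {k : Fr} (hk : k ∈ Λ) :
    sym (ext (Mfun Λ σ b)) k = σ k * sym (ext b) k := by
  have h1 : ∀ (k : Fr) (hk : k ∈ Λ), ext (Mfun Λ σ b) k = σ k * ext b k := by
    intro k hk
    have e1 := ext_mem (Mfun Λ σ b) ⟨k, hk⟩
    have e2 := ext_mem b ⟨k, hk⟩
    simp only at e1 e2
    rw [e1, e2, Mfun_apply]
  unfold sym
  rw [h1 k hk, h1 (-k) (hΛ k hk), map_mul, hσ, Complex.conj_conj]
  ring

theorem sG_neg (k : Fr) : sG κ g (-k) = conj (sG κ g k) := by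
  unfold sG
  rw [map_mul, Complex.conj_I, Complex.conj_ofReal]
  simp

theorem sA_neg (k : Fr) : sA ν κ (-k) = conj (sA ν κ k) := by
  unfold sA
  rw [Complex.conj_ofReal, nsq_neg]

/-- the right-hand side of the vorticity equation -/
noncomputable def Fw (w θ : Fr → ℂ) (k : Fr) : ℂ := -NN w w k - sA ν κ k * w k + sG κ g k * θ k

theorem hasDerivAt_sym_ext {x : ℝ → EuclideanSpace ℂ Λ} {x' : EuclideanSpace ℂ Λ} {t : ℝ}
    (h : HasDerivAt x x' t) (k : Fr) :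
    HasDerivAt (fun s => sym (ext (x s)) k) (sym (ext x') k) t := by
  have h1 : ∀ j : Fr, HasDerivAt (fun s => ext (x s) j) (ext x' j) t := by
    intro j
    by_cases hj : j ∈ Λ
    · have e : ∀ y : EuclideanSpace ℂ Λ, ext y j = y ⟨j, hj⟩ := fun y => ext_mem y ⟨j, hj⟩
      simp only [e]
      exact (PiLp.proj (𝕜 := ℝ) 2 (fun _ : Λ => ℂ) ⟨j, hj⟩).hasFDerivAt.comp_hasDerivAt t h
    · simp only [ext_not_mem _ hj]
      exact hasDerivAt_const _ _
  unfold sym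
  have h2 : HasDerivAt (fun s => conj (ext (x s) (-k))) (conj (ext x' (-k))) t :=
    Complex.conjCLE.toContinuousLinearMap.hasFDerivAt.comp_hasDerivAt t (h1 (-k))
  exact ((h1 k).add h2).div_const 2

theorem sqLe_sym_ext (hΛ : ∀ k ∈ Λ, -k ∈ Λ) (x : EuclideanSpace ℂ Λ) {C : ℝ}
    (hx : ‖x‖ ^ 2 ≤ C) : SqLe (sym (ext x)) C := by
  classical
  intro S
  have h1 : ∀ j, ‖sym (ext x) j‖ ^ 2 ≤ (‖ext x j‖ ^ 2 + ‖ext x (-j)‖ ^ 2) / 2 := by
    intro j
    unfold sym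
    rw [norm_div]
    have : ‖ext x j + conj (ext x (-j))‖ ≤ ‖ext x j‖ + ‖ext x (-j)‖ := by
      refine (norm_add_le _ _).trans ?_
      rw [Complex.norm_conj]
    rw [div_pow]
    have h2 : ‖(2 : ℂ)‖ = 2 := by simp
    rw [h2]
    have h3 : ‖ext x j + conj (ext x (-j))‖ ^ 2 ≤ (‖ext x j‖ + ‖ext x (-j)‖) ^ 2 :=
      pow_le_pow_left₀ (norm_nonneg _) this 2
    nlinarith [sq_nonneg (‖ext x j‖ - ‖ext x (-j)‖)]
  have h0 : ∀ j ∉ Λ, ‖sym (ext x) j‖ ^ 2 = 0 := by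
    intro j hj
    have hj' : -j ∉ Λ := fun h => hj (by simpa using hΛ _ h)
    unfold sym
    rw [ext_not_mem _ hj, ext_not_mem _ hj']
    simp
  have hnorm : ∑ j ∈ Λ, ‖ext x j‖ ^ 2 = ‖x‖ ^ 2 := by
    rw [EuclideanSpace.norm_sq_eq, ← Finset.sum_coe_sort Λ (fun l => ‖ext x l‖ ^ 2)]
    exact Finset.sum_congr rfl (fun l _ => by rw [ext_mem])
  have hnorm' : ∑ j ∈ Λ, ‖ext x (-j)‖ ^ 2 = ‖x‖ ^ 2 := by
    rw [← hnorm]
    exact Finset.sum_nbij' (fun l => -l) (fun l => -l) hΛ hΛ (fun _ _ => neg_neg _)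
        (fun _ _ => neg_neg _) (fun l _ => rfl)
  calc ∑ k ∈ S, ‖sym (ext x) k‖ ^ 2 ≤ ∑ k ∈ S ∪ Λ, ‖sym (ext x) k‖ ^ 2 :=
        Finset.sum_le_sum_of_subset_of_nonneg Finset.subset_union_left
          (fun _ _ _ => sq_nonneg _)
    _ = ∑ k ∈ Λ, ‖sym (ext x) k‖ ^ 2 := by
        refine (Finset.sum_subset Finset.subset_union_right (fun j _ hj => h0 j hj)).symm
    _ ≤ ∑ k ∈ Λ, (‖ext x k‖ ^ 2 + ‖ext x (-k)‖ ^ 2) / 2 := Finset.sum_le_sum (fun j _ => h1 j)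
    _ = ‖x‖ ^ 2 := by
        rw [← Finset.sum_div, Finset.sum_add_distrib, hnorm, hnorm']
        ring
    _ ≤ C := hx

/-- Solvability of the two-point problem for the Galerkin system. -/
theorem galerkin (hν : 0 < ν) (hκ : 0 < κ) (Λ : Finset Fr) (hΛ : ∀ k ∈ Λ, -k ∈ Λ)
    (h0 : (0 : Fr) ∉ Λ) (T T' : ℝ) (hT : 0 ≤ T) (hTT : T ≤ T') (c : Fr → ℂ)
    (hc : ∀ k, c (-k) = conj (c k)) (r : ℝ) (hcr : SqLe c r) :
    ∃ w θ : ℝ → Fr → ℂ, (∀ k, w 0 k = 0) ∧ (∀ k ∈ Λ, θ T k = c k) ∧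
      ∀ t ∈ Icc 0 T', (∀ k ∉ Λ, w t k = 0 ∧ θ t k = 0) ∧
        (∀ k, w t (-k) = conj (w t k) ∧ θ t (-k) = conj (θ t k)) ∧
        SqLe (w t) (g ^ 2 / ν / (ν * κ ^ 2) * r) ∧ SqLe (θ t) r ∧
        ∀ k ∈ Λ, HasDerivAt (fun s => w s k) (Fw ν κ g (w t) (θ t) k) t ∧
          HasDerivAt (fun s => θ s k) (-NN (w t) (θ t) k) t := by
  set y : EuclideanSpace ℂ Λ := WithLp.toLp 2 (fun k : Λ => c k) with hy
  have hyr : ‖y‖ ^ 2 ≤ r := by
    rw [EuclideanSpace.norm_sq_eq]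
    have := hcr Λ
    rw [← Finset.sum_coe_sort Λ (fun l => ‖c l‖ ^ 2)] at this
    exact this
  obtain ⟨w, θ, hw0, hθT, h⟩ := exists_two_point (Bcl Λ) Bcl_skew (Mfun Λ (sA ν κ))
    (Mfun Λ (sG κ g)) (ν * κ ^ 2) (g ^ 2 / ν) (by positivity) (by positivity)
    (energy ν κ g hν h0) T T' hT hTT y
  refine ⟨fun t => sym (ext (w t)), fun t => sym (ext (θ t)), ?_, ?_, ?_⟩
  · intro k
    simp only [hw0]
    unfold sym ext
    simp
  · intro k hk
    simp only [hθT]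
    have e1 := ext_mem y ⟨k, hk⟩
    have e2 := ext_mem y ⟨-k, hΛ k hk⟩
    simp only at e1 e2
    unfold sym
    rw [e1, e2, hy]
    simp only
    rw [hc, Complex.conj_conj]
    ring
  · intro t ht
    obtain ⟨h1, h2, h3, h4⟩ := h t ht
    refine ⟨?_, ?_, ?_, ?_, ?_⟩
    · intro k hk
      have hk' : -k ∉ Λ := fun h => hk (by simpa using hΛ _ h)
      show sym (ext (w t)) k = 0 ∧ sym (ext (θ t)) k = 0
      unfold sym
      rw [ext_not_mem _ hk, ext_not_mem _ hk', ext_not_mem _ hk, ext_not_mem _ hk']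
      simp
    · exact fun k => ⟨sym_neg_apply _ _, sym_neg_apply _ _⟩
    · refine sqLe_sym_ext hΛ _ (h4.trans ?_)
      gcongr
    · refine sqLe_sym_ext hΛ _ ?_
      rw [h3]
      exact hyr
    · intro k hk
      constructor
      · refine (hasDerivAt_sym_ext h1 k).congr_deriv ?_
        have e1 : -(Bcl Λ) (w t) (w t) - (Mfun Λ (sA ν κ)) (w t) + (Mfun Λ (sG κ g)) (θ t) =
            (-1 : ℝ) • Bfun (w t) (w t) + (-1 : ℝ) • (Mfun Λ (sA ν κ)) (w t) +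
              (Mfun Λ (sG κ g)) (θ t) := by
          rw [Bcl_apply, neg_one_smul, neg_one_smul, sub_eq_add_neg]
        rw [e1, sym_ext_add, sym_ext_add, sym_ext_smul, sym_ext_smul, sym_Bfun hΛ _ _ hk,
          sym_Mfun hΛ _ (sA_neg ν κ) _ hk, sym_Mfun hΛ _ (sG_neg κ g) _ hk]
        unfold Fw
        push_cast
        ring
      · refine (hasDerivAt_sym_ext h2 k).congr_deriv ?_
        have e1 : -(Bcl Λ) (w t) (θ t) = (-1 : ℝ) • Bfun (w t) (θ t) := by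
          rw [Bcl_apply, neg_one_smul]
        rw [e1, sym_ext_smul, sym_Bfun hΛ _ _ hk]
        push_cast
        ring

end Pool.Agent.Q64.Bous
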