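import Pool.Agent.Q64.Bous.Gal

/-!
# Compactness of coefficient-level solutions
-/

set_option autoImplicit false

open Set Filter Topology MeasureTheory
open scoped ComplexConjugate

namespace Pool.Agent.Q64.Bous

/-- Coefficient-level solutions: vorticity and temperature Fourier coefficients. -/
structure CSol (ν κ g : ℝ) (Λ : Set Fr) (I : Set ℝ) (C : ℝ) (w θ : ℝ → Fr → ℂ) : Prop where
  supp : ∀ t ∈ I, ∀ k ∉ Λ, w t k = 0 ∧ θ t k = 0
  symm : ∀ t ∈ I, ∀ k, w t (-k) = conj (w t k) ∧ θ t (-k) = conj (θ t k)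
  sq_w : ∀ t ∈ I, SqLe (w t) C
  sq_θ : ∀ t ∈ I, SqLe (θ t) C
  cont : ∀ k, ContinuousOn (fun t => w t k) I ∧ ContinuousOn (fun t => θ t k) I
  eq_w : ∀ k ∈ Λ, ∀ s ∈ I, ∀ t ∈ I, w t k - w s k = ∫ τ in s..t, Fw ν κ g (w τ) (θ τ) k
  eq_θ : ∀ k ∈ Λ, ∀ s ∈ I, ∀ t ∈ I, θ t k - θ s k = ∫ τ in s..t, -NN (w τ) (θ τ) k

theorem NN_continuousOn {I : Set ℝ} {C : ℝ} {w θ : ℝ → Fr → ℂ} (hw : ∀ t ∈ I, SqLe (w t) C)
    (hθ : ∀ t ∈ I, SqLe (θ t) C) (cw : ∀ k, ContinuousOn (fun t => w t k) I)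
    (cθ : ∀ k, ContinuousOn (fun t => θ t k) I) (k : Fr) :
    ContinuousOn (fun t => NN (w t) (θ t) k) I := by
  intro t ht
  exact NN_tendsto (eventually_mem_nhdsWithin.mono hw) (eventually_mem_nhdsWithin.mono hθ)
    (hw t ht) (hθ t ht) (fun j => cw j t ht) (fun j => cθ j t ht) k

theorem Fw_continuousOn {ν κ g : ℝ} {I : Set ℝ} {C : ℝ} {w θ : ℝ → Fr → ℂ}
    (hw : ∀ t ∈ I, SqLe (w t) C)
    (cw : ∀ k, ContinuousOn (fun t => w t k) I)
    (cθ : ∀ k, ContinuousOn (fun t => θ t k) I) (k : Fr) :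
    ContinuousOn (fun t => Fw ν κ g (w t) (θ t) k) I := by
  unfold Fw
  exact ((NN_continuousOn hw hw cw cw k).neg.sub (continuousOn_const.mul (cw k))).add
    (continuousOn_const.mul (cθ k))

/-- bound of the right-hand sides -/
noncomputable def Mb (ν κ g C : ℝ) (k : Fr) : ℝ :=
  l1 k * C + ‖sA ν κ k‖ * (C + 1) + ‖sG κ g k‖ * (C + 1)

theorem norm_le_of_sqLe {a : Fr → ℂ} {C : ℝ} (h : SqLe a C) (k : Fr) : ‖a k‖ ≤ C + 1 := by
  have := h.apply_le k
  nlinarith [sq_nonneg (‖a k‖ - 1), h.nonneg, norm_nonneg (a k)]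

theorem norm_Fw_le {ν κ g C : ℝ} {a b : Fr → ℂ} (ha : SqLe a C) (hb : SqLe b C) (k : Fr) :
    ‖Fw ν κ g a b k‖ ≤ Mb ν κ g C k := by
  unfold Fw Mb
  have h1 := norm_NN_le ha ha k
  have h2 : ‖sA ν κ k * a k‖ ≤ ‖sA ν κ k‖ * (C + 1) := by
    rw [norm_mul]
    exact mul_le_mul_of_nonneg_left (norm_le_of_sqLe ha k) (norm_nonneg _)
  have h3 : ‖sG κ g k * b k‖ ≤ ‖sG κ g k‖ * (C + 1) := by
    rw [norm_mul]
    exact mul_le_mul_of_nonneg_left (norm_le_of_sqLe hb k) (norm_nonneg _)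
  calc ‖-NN a a k - sA ν κ k * a k + sG κ g k * b k‖
      ≤ ‖-NN a a k - sA ν κ k * a k‖ + ‖sG κ g k * b k‖ := norm_add_le _ _
    _ ≤ ‖-NN a a k‖ + ‖sA ν κ k * a k‖ + ‖sG κ g k * b k‖ := by
        gcongr
        exact norm_sub_le _ _
    _ ≤ _ := by
        rw [norm_neg]
        linarith

theorem norm_NN_le' {ν κ g C : ℝ} {a b : Fr → ℂ} (ha : SqLe a C) (hb : SqLe b C) (k : Fr) :
    ‖-NN a b k‖ ≤ Mb ν κ g C k := by
  rw [norm_neg]
  refine (norm_NN_le ha hb k).trans ?_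
  unfold Mb
  have := ha.nonneg
  have h1 : 0 ≤ ‖sA ν κ k‖ * (C + 1) := by positivity
  have h2 : 0 ≤ ‖sG κ g k‖ * (C + 1) := by positivity
  linarith

theorem CSol.lip {ν κ g : ℝ} {Λ : Set Fr} {I : Set ℝ} {C : ℝ} {w θ : ℝ → Fr → ℂ}
    (h : CSol ν κ g Λ I C w θ) (k : Fr) {s t : ℝ} (hst : uIcc s t ⊆ I) :
    ‖((w t k, θ t k) : ℂ × ℂ) - (w s k, θ s k)‖ ≤ Mb ν κ g C k * |t - s| := by
  have hs : s ∈ I := hst left_mem_uIcc
  have ht : t ∈ I := hst right_mem_uIcc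
  by_cases hk : k ∈ Λ
  · rw [Prod.mk_sub_mk, Prod.norm_def]
    refine max_le ?_ ?_
    · simp only
      rw [h.eq_w k hk s hs t ht]
      exact intervalIntegral.norm_integral_le_of_norm_le_const (fun τ hτ =>
        norm_Fw_le (h.sq_w τ (hst (uIoc_subset_uIcc hτ))) (h.sq_θ τ (hst (uIoc_subset_uIcc hτ))) k)
    · simp only
      rw [h.eq_θ k hk s hs t ht]
      exact intervalIntegral.norm_integral_le_of_norm_le_const (fun τ hτ =>
        norm_NN_le' (h.sq_w τ (hst (uIoc_subset_uIcc hτ))) (h.sq_θ τ (hst (uIoc_subset_uIcc hτ))) k)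
  · rw [(h.supp t ht k hk).1, (h.supp t ht k hk).2, (h.supp s hs k hk).1, (h.supp s hs k hk).2,
      sub_self, norm_zero]
    have h1 : 0 ≤ Mb ν κ g C k := (norm_nonneg _).trans (norm_Fw_le (h.sq_w s hs) (h.sq_θ s hs) k)
    positivity

/-- The Galerkin solutions as coefficient-level solutions, shifted in time. -/
theorem galerkin_CSol {ν κ g : ℝ} (hν : 0 < ν) (hκ : 0 < κ) (Λ : Finset Fr)
    (hΛ : ∀ k ∈ Λ, -k ∈ Λ) (h0 : (0 : Fr) ∉ Λ) (T T' : ℝ) (hT : 0 ≤ T) (hT' : 0 ≤ T')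
    (c : Fr → ℂ) (hc : ∀ k, c (-k) = conj (c k)) (r : ℝ) (hcr : SqLe c r) :
    ∃ w θ : ℝ → Fr → ℂ, (∀ k, w (-T) k = 0) ∧ (∀ k ∈ Λ, θ 0 k = c k) ∧
      CSol ν κ g Λ (Icc (-T) T') (g ^ 2 / ν / (ν * κ ^ 2) * r + r) w θ := by
  have hr : 0 ≤ r := hcr.nonneg
  obtain ⟨w, θ, hw0, hθT, h⟩ := galerkin ν κ g hν hκ Λ hΛ h0 T (T + T') hT (by linarith) c hc r hcr
  have hC1 : g ^ 2 / ν / (ν * κ ^ 2) * r ≤ g ^ 2 / ν / (ν * κ ^ 2) * r + r := by linarith
  have hC2 : r ≤ g ^ 2 / ν / (ν * κ ^ 2) * r + r := by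
    have : 0 ≤ g ^ 2 / ν / (ν * κ ^ 2) * r := by positivity
    linarith
  have hmem : ∀ t ∈ Icc (-T) T', t + T ∈ Icc 0 (T + T') := fun t ht =>
    ⟨by linarith [ht.1], by linarith [ht.2]⟩
  have hder : ∀ t ∈ Icc (-T) T', ∀ k ∈ Λ,
      HasDerivAt (fun s => w (s + T) k) (Fw ν κ g (w (t + T)) (θ (t + T)) k) t ∧
          HasDerivAt (fun s => θ (s + T) k) (-NN (w (t + T)) (θ (t + T)) k) t := by
    intro t ht k hk
    obtain ⟨-, -, -, -, h5⟩ := h (t + T) (hmem t ht)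
    exact ⟨(h5 k hk).1.comp_add_const t T, (h5 k hk).2.comp_add_const t T⟩
  have hsqw : ∀ t ∈ Icc (-T) T', SqLe (w (t + T)) (g ^ 2 / ν / (ν * κ ^ 2) * r + r) :=
    fun t ht S => ((h _ (hmem t ht)).2.2.1 S).trans hC1
  have hsqθ : ∀ t ∈ Icc (-T) T', SqLe (θ (t + T)) (g ^ 2 / ν / (ν * κ ^ 2) * r + r) :=
    fun t ht S => ((h _ (hmem t ht)).2.2.2.1 S).trans hC2
  have hcont : ∀ k, ContinuousOn (fun t => w (t + T) k) (Icc (-T) T') ∧
      ContinuousOn (fun t => θ (t + T) k) (Icc (-T) T') := by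
    intro k
    by_cases hk : k ∈ Λ
    · exact ⟨fun t ht => (hder t ht k hk).1.continuousAt.continuousWithinAt,
        fun t ht => (hder t ht k hk).2.continuousAt.continuousWithinAt⟩
    · exact ⟨(continuousOn_const (c := (0 : ℂ))).congr
          (fun t ht => ((h _ (hmem t ht)).1 k hk).1),
        (continuousOn_const (c := (0 : ℂ))).congr (fun t ht => ((h _ (hmem t ht)).1 k hk).2)⟩
  have hcw := fun k => (hcont k).1
  have hcθ := fun k => (hcont k).2
  refine ⟨fun t => w (t + T), fun t => θ (t + T), ?_, ?_, ?_⟩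
  · intro k
    simp [hw0]
  · intro k hk
    simp [hθT k hk]
  refine ⟨fun t ht => (h _ (hmem t ht)).1, fun t ht => (h _ (hmem t ht)).2.1, hsqw, hsqθ, hcont,
    ?_, ?_⟩
  · intro k hk s hs t ht
    have hsub : uIcc s t ⊆ Icc (-T) T' := (ordConnected_Icc).uIcc_subset hs ht
    refine (intervalIntegral.integral_eq_sub_of_hasDerivAt
      (fun τ hτ => (hder τ (hsub hτ) k hk).1) ?_).symm
    exact ((Fw_continuousOn hsqw hcw hcθ k).mono hsub).intervalIntegrable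
  · intro k hk s hs t ht
    have hsub : uIcc s t ⊆ Icc (-T) T' := (ordConnected_Icc).uIcc_subset hs ht
    refine (intervalIntegral.integral_eq_sub_of_hasDerivAt
      (fun τ hτ => (hder τ (hsub hτ) k hk).2) ?_).symm
    exact ((NN_continuousOn hsqw hsqθ hcw hcθ k).neg.mono hsub).intervalIntegrable

theorem compactness {ν κ g C : ℝ} (Λ : ℕ → Set Fr) (I : ℕ → Set ℝ) (J : Set ℝ)
    (hJ : J.OrdConnected) (hΛ0 : ∀ n, (0 : Fr) ∉ Λ n)
    (hΛ : ∀ k : Fr, k ≠ 0 → ∀ᶠ n in atTop, k ∈ Λ n)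
    (hI : ∀ a ∈ J, ∀ b ∈ J, ∀ᶠ n in atTop, uIcc a b ⊆ I n)
    (w θ : ℕ → ℝ → Fr → ℂ) (h : ∀ n, CSol ν κ g (Λ n) (I n) C (w n) (θ n)) :
    ∃ φ : ℕ → ℕ, StrictMono φ ∧ ∃ w' θ' : ℝ → Fr → ℂ, CSol ν κ g {0}ᶜ J C w' θ' ∧
      ∀ t ∈ J, ∀ k, Tendsto (fun n => w (φ n) t k) atTop (𝓝 (w' t k)) ∧
        Tendsto (fun n => θ (φ n) t k) atTop (𝓝 (θ' t k)) := by
  classical
  obtain ⟨D, hDc, hDd⟩ := TopologicalSpace.exists_countable_dense J
  have : Countable D := hDc.to_subtype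
  set Xs : ℕ → Fr × D → ℂ × ℂ := fun n p =>
    if ((p.2 : J) : ℝ) ∈ I n then (w n (p.2 : J) p.1, θ n (p.2 : J) p.1) else 0 with hXs
  have hC : ∀ (n : ℕ) (t : ℝ), t ∈ I n → ∀ k, ‖((w n t k, θ n t k) : ℂ × ℂ)‖ ≤ |C| + 1 := by
    intro n t ht k
    rw [Prod.norm_def]
    have h1 := norm_le_of_sqLe ((h n).sq_w t ht) k
    have h2 := norm_le_of_sqLe ((h n).sq_θ t ht) k
    have h3 := le_abs_self C
    exact max_le (by simpa using h1.trans (by linarith)) (by simpa using h2.trans (by linarith))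
  have hXb : ∀ n, Xs n ∈ Set.pi univ (fun _ : Fr × D => Metric.closedBall (0 : ℂ × ℂ) (|C| + 1)) := by
    intro n p _
    rw [mem_closedBall_zero_iff]
    simp only [hXs]
    split_ifs with hp
    · exact hC n _ hp _
    · rw [norm_zero]
      positivity
  obtain ⟨x, -, φ, hφ, hx⟩ := (isCompact_univ_pi (fun _ : Fr × D =>
    isCompact_closedBall (0 : ℂ × ℂ) (|C| + 1))).tendsto_subseq hXb
  rw [tendsto_pi_nhds] at hx
  have hev : ∀ a ∈ J, ∀ b ∈ J, ∀ᶠ n in atTop, uIcc a b ⊆ I (φ n) := fun a ha b hb =>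
    hφ.tendsto_atTop.eventually (hI a ha b hb)
  have hev1 : ∀ a ∈ J, ∀ᶠ n in atTop, a ∈ I (φ n) := fun a ha =>
    (hev a ha a ha).mono (fun n hn => hn left_mem_uIcc)
  -- convergence at the points of D
  have hD : ∀ (q : J) (hq : q ∈ D), ∀ k,
      Tendsto (fun n => ((w (φ n) q k, θ (φ n) q k) : ℂ × ℂ)) atTop (𝓝 (x (k, ⟨q, hq⟩))) := by
    intro q hq k
    refine (hx (k, ⟨q, hq⟩)).congr' ?_
    filter_upwards [hev1 q q.2] with n hn
    simp only [hXs, Function.comp_apply]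
    rw [if_pos hn]
  -- convergence everywhere
  have hcau : ∀ t ∈ J, ∀ k, ∃ z : ℂ × ℂ,
      Tendsto (fun n => ((w (φ n) t k, θ (φ n) t k) : ℂ × ℂ)) atTop (𝓝 z) := by
    intro t ht k
    have hMb : 0 ≤ Mb ν κ g C k := by
      obtain ⟨n, hn⟩ := (hev1 t ht).exists
      exact (norm_nonneg _).trans (norm_Fw_le ((h _).sq_w t hn) ((h _).sq_θ t hn) k)
    refine cauchySeq_tendsto_of_complete ?_
    rw [Metric.cauchySeq_iff]
    intro ε hε
    set δ : ℝ := ε / (3 * (Mb ν κ g C k + 1)) with hδ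
    have hδ0 : 0 < δ := by positivity
    obtain ⟨q, hqD, hq⟩ := hDd.exists_dist_lt (⟨t, ht⟩ : J) hδ0
    have hqt : |t - q| < δ := by
      have : dist (⟨t, ht⟩ : J) q = |t - q| := rfl
      rwa [← this]
    have hcq := (hD q hqD k).cauchySeq
    rw [Metric.cauchySeq_iff] at hcq
    obtain ⟨N, hN⟩ := hcq (ε / 3) (by positivity)
    obtain ⟨N', hN'⟩ := eventually_atTop.1 (hev q q.2 t ht)
    have hb : ∀ n ≥ N', dist ((w (φ n) t k, θ (φ n) t k) : ℂ × ℂ)
        (w (φ n) q k, θ (φ n) q k) < ε / 3 := by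
      intro n hn
      rw [dist_eq_norm]
      refine ((h (φ n)).lip k (hN' n hn)).trans_lt ?_
      calc Mb ν κ g C k * |t - q| ≤ Mb ν κ g C k * δ := mul_le_mul_of_nonneg_left hqt.le hMb
        _ < (Mb ν κ g C k + 1) * δ := by
          apply mul_lt_mul_of_pos_right _ hδ0
          linarith
        _ = ε / 3 := by
          rw [hδ]
          field_simp
    refine ⟨max N N', fun m hm n hn => ?_⟩
    have hm1 := hN m (le_of_max_le_left hm) n (le_of_max_le_left hn)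
    have hm2 := hb m (le_of_max_le_right hm)
    have hm3 := hb n (le_of_max_le_right hn)
    rw [dist_comm] at hm3
    calc dist ((w (φ m) t k, θ (φ m) t k) : ℂ × ℂ) (w (φ n) t k, θ (φ n) t k)
        ≤ dist ((w (φ m) t k, θ (φ m) t k) : ℂ × ℂ) (w (φ m) q k, θ (φ m) q k) +
          dist ((w (φ m) q k, θ (φ m) q k) : ℂ × ℂ) (w (φ n) q k, θ (φ n) q k) +
          dist ((w (φ n) q k, θ (φ n) q k) : ℂ × ℂ) (w (φ n) t k, θ (φ n) t k) :=
          dist_triangle4 _ _ _ _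
      _ < ε := by linarith
  choose z hz using hcau
  set w' : ℝ → Fr → ℂ := fun t k => if ht : t ∈ J then (z t ht k).1 else 0 with hw'
  set θ' : ℝ → Fr → ℂ := fun t k => if ht : t ∈ J then (z t ht k).2 else 0 with hθ'
  have hlw : ∀ t ∈ J, ∀ k, Tendsto (fun n => w (φ n) t k) atTop (𝓝 (w' t k)) := by
    intro t ht k
    have := (continuous_fst.tendsto _).comp (hz t ht k)
    simp only [hw']
    rw [dif_pos ht]
    exact this
  have hlθ : ∀ t ∈ J, ∀ k, Tendsto (fun n => θ (φ n) t k) atTop (𝓝 (θ' t k)) := by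
    intro t ht k
    have := (continuous_snd.tendsto _).comp (hz t ht k)
    simp only [hθ']
    rw [dif_pos ht]
    exact this
  have hsqw : ∀ t ∈ J, SqLe (w' t) C := fun t ht =>
    SqLe.of_tendsto (l := atTop) ((hev1 t ht).mono (fun n hn => (h (φ n)).sq_w t hn)) (hlw t ht)
  have hsqθ : ∀ t ∈ J, SqLe (θ' t) C := fun t ht =>
    SqLe.of_tendsto (l := atTop) ((hev1 t ht).mono (fun n hn => (h (φ n)).sq_θ t hn)) (hlθ t ht)
  have hlip : ∀ k, ∀ s ∈ J, ∀ t ∈ J,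
      ‖((w' t k, θ' t k) : ℂ × ℂ) - (w' s k, θ' s k)‖ ≤ Mb ν κ g C k * |t - s| := by
    intro k s hs t ht
    have h1 : Tendsto (fun n => ‖((w (φ n) t k, θ (φ n) t k) : ℂ × ℂ) -
        (w (φ n) s k, θ (φ n) s k)‖) atTop (𝓝 ‖((w' t k, θ' t k) : ℂ × ℂ) - (w' s k, θ' s k)‖) :=
      (((hlw t ht k).prodMk_nhds (hlθ t ht k)).sub
        ((hlw s hs k).prodMk_nhds (hlθ s hs k))).norm
    exact le_of_tendsto h1 ((hev s hs t ht).mono (fun n hn => (h (φ n)).lip k hn))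
  have hcont : ∀ k, ContinuousOn (fun t => ((w' t k, θ' t k) : ℂ × ℂ)) J := by
    intro k
    rcases J.eq_empty_or_nonempty with hJe | ⟨t0, ht0⟩
    · rw [hJe]
      exact continuousOn_empty _
    have hMb : 0 ≤ Mb ν κ g C k :=
      (norm_nonneg _).trans (norm_Fw_le (hsqw t0 ht0) (hsqθ t0 ht0) k)
    have : LipschitzOnWith (Real.toNNReal (Mb ν κ g C k))
        (fun t => ((w' t k, θ' t k) : ℂ × ℂ)) J := by
      refine LipschitzOnWith.of_dist_le_mul (fun s hs t ht => ?_)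
      rw [dist_eq_norm, Real.coe_toNNReal _ hMb, Real.dist_eq]
      exact hlip k t ht s hs
    exact this.continuousOn
  have hcw : ∀ k, ContinuousOn (fun t => w' t k) J := fun k =>
    continuous_fst.comp_continuousOn (hcont k)
  have hcθ : ∀ k, ContinuousOn (fun t => θ' t k) J := fun k =>
    continuous_snd.comp_continuousOn (hcont k)
  refine ⟨φ, hφ, w', θ', ⟨?_, ?_, hsqw, hsqθ, fun k => ⟨hcw k, hcθ k⟩, ?_, ?_⟩,
    fun t ht k => ⟨hlw t ht k, hlθ t ht k⟩⟩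
  · intro t ht k hk
    have hk0 : k = 0 := by simpa using hk
    subst hk0
    constructor
    · refine tendsto_nhds_unique (hlw t ht 0) (tendsto_const_nhds.congr' ?_)
      filter_upwards [hev1 t ht] with n hn
      exact ((h (φ n)).supp t hn 0 (hΛ0 _)).1.symm
    · refine tendsto_nhds_unique (hlθ t ht 0) (tendsto_const_nhds.congr' ?_)
      filter_upwards [hev1 t ht] with n hn
      exact ((h (φ n)).supp t hn 0 (hΛ0 _)).2.symm
  · intro t ht k
    constructor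
    · refine tendsto_nhds_unique (hlw t ht (-k)) ?_
      have h1 := (Complex.continuous_conj.tendsto _).comp (hlw t ht k)
      refine h1.congr' ?_
      filter_upwards [hev1 t ht] with n hn
      exact ((h (φ n)).symm t hn k).1.symm
    · refine tendsto_nhds_unique (hlθ t ht (-k)) ?_
      have h1 := (Complex.continuous_conj.tendsto _).comp (hlθ t ht k)
      refine h1.congr' ?_
      filter_upwards [hev1 t ht] with n hn
      exact ((h (φ n)).symm t hn k).2.symm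
  · intro k hk s hs t ht
    have hk0 : k ≠ 0 := by simpa using hk
    have hsub : uIcc s t ⊆ J := hJ.uIcc_subset hs ht
    have hΛe : ∀ᶠ n in atTop, k ∈ Λ (φ n) := hφ.tendsto_atTop.eventually (hΛ k hk0)
    have h1 : Tendsto (fun n => w (φ n) t k - w (φ n) s k) atTop (𝓝 (w' t k - w' s k)) :=
      (hlw t ht k).sub (hlw s hs k)
    have h2 : Tendsto (fun n => ∫ τ in s..t, Fw ν κ g (w (φ n) τ) (θ (φ n) τ) k) atTop
        (𝓝 (∫ τ in s..t, Fw ν κ g (w' τ) (θ' τ) k)) := by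
      refine intervalIntegral.tendsto_integral_filter_of_dominated_convergence
        (fun _ => Mb ν κ g C k) ?_ ?_ intervalIntegrable_const ?_
      · filter_upwards [hev s hs t ht] with n hn
        have := Fw_continuousOn (ν := ν) (κ := κ) (g := g) (h (φ n)).sq_w
          (fun k => ((h (φ n)).cont k).1) (fun k => ((h (φ n)).cont k).2) k
        exact ((this.mono hn).mono uIoc_subset_uIcc).aestronglyMeasurable measurableSet_uIoc
      · filter_upwards [hev s hs t ht] with n hn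
        refine ae_of_all _ (fun τ hτ => ?_)
        have hτ' := hn (uIoc_subset_uIcc hτ)
        exact norm_Fw_le ((h (φ n)).sq_w τ hτ') ((h (φ n)).sq_θ τ hτ') k
      · refine ae_of_all _ (fun τ hτ => ?_)
        have hτJ := hsub (uIoc_subset_uIcc hτ)
        unfold Fw
        have e1 := NN_tendsto (l := atTop) (C := C)
          ((hev1 τ hτJ).mono (fun n hn => (h (φ n)).sq_w τ hn))
          ((hev1 τ hτJ).mono (fun n hn => (h (φ n)).sq_w τ hn)) (hsqw τ hτJ) (hsqw τ hτJ)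
          (hlw τ hτJ) (hlw τ hτJ) k
        exact (e1.neg.sub ((hlw τ hτJ k).const_mul _)).add ((hlθ τ hτJ k).const_mul _)
    refine tendsto_nhds_unique h1 (h2.congr' ?_)
    filter_upwards [hev1 s hs, hev1 t ht, hΛe] with n hns hnt hnk
    exact ((h (φ n)).eq_w k hnk s hns t hnt).symm
  · intro k hk s hs t ht
    have hk0 : k ≠ 0 := by simpa using hk
    have hsub : uIcc s t ⊆ J := hJ.uIcc_subset hs ht
    have hΛe : ∀ᶠ n in atTop, k ∈ Λ (φ n) := hφ.tendsto_atTop.eventually (hΛ k hk0)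
    have h1 : Tendsto (fun n => θ (φ n) t k - θ (φ n) s k) atTop (𝓝 (θ' t k - θ' s k)) :=
      (hlθ t ht k).sub (hlθ s hs k)
    have h2 : Tendsto (fun n => ∫ τ in s..t, -NN (w (φ n) τ) (θ (φ n) τ) k) atTop
        (𝓝 (∫ τ in s..t, -NN (w' τ) (θ' τ) k)) := by
      refine intervalIntegral.tendsto_integral_filter_of_dominated_convergence
        (fun _ => Mb ν κ g C k) ?_ ?_ intervalIntegrable_const ?_
      · filter_upwards [hev s hs t ht] with n hn
        have := (NN_continuousOn (h (φ n)).sq_w (h (φ n)).sq_θ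
          (fun k => ((h (φ n)).cont k).1) (fun k => ((h (φ n)).cont k).2) k).neg
        exact ((this.mono hn).mono uIoc_subset_uIcc).aestronglyMeasurable measurableSet_uIoc
      · filter_upwards [hev s hs t ht] with n hn
        refine ae_of_all _ (fun τ hτ => ?_)
        have hτ' := hn (uIoc_subset_uIcc hτ)
        exact norm_NN_le' ((h (φ n)).sq_w τ hτ') ((h (φ n)).sq_θ τ hτ') k
      · refine ae_of_all _ (fun τ hτ => ?_)
        have hτJ := hsub (uIoc_subset_uIcc hτ)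
        exact (NN_tendsto (l := atTop) (C := C)
          ((hev1 τ hτJ).mono (fun n hn => (h (φ n)).sq_w τ hn))
          ((hev1 τ hτJ).mono (fun n hn => (h (φ n)).sq_θ τ hn)) (hsqw τ hτJ) (hsqθ τ hτJ)
          (hlw τ hτJ) (hlθ τ hτJ) k).neg
    refine tendsto_nhds_unique h1 (h2.congr' ?_)
    filter_upwards [hev1 s hs, hev1 t ht, hΛe] with n hns hnt hnk
    exact ((h (φ n)).eq_θ k hnk s hns t hnt).symm

end Pool.Agent.Q64.Bous
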