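import Pool.Agent.Q64.Bous.Lim
import Pool.Agent.Q64.Bous.Defs

/-!
# From coefficient-level solutions to solutions
-/

set_option autoImplicit false

open Set Filter Topology MeasureTheory
open scoped ComplexConjugate ContDiff

namespace Pool.Agent.Q64.Bous

open UnitAddTorus (mFourier)

theorem pair_eq (f : LpR) (k : Fr) : pair f k = fc (cx f) (-k) := by
  unfold pair fc cx
  rw [neg_neg]
  congr 1
  funext y
  rw [mul_comm]

theorem pair_mul_eq (f h : LpR) (k : Fr) :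
    pair (fun y => f y * h y) k = ∑' j, fc (cx h) j * fc (cx f) (-k - j) := by
  rw [← fc_mul (memLp_cx h) (memLp_cx f)]
  unfold pair fc cx
  rw [neg_neg]
  congr 1
  funext y
  push_cast
  ring

theorem meanFree_iff (f : LpR) : MeanFree f ↔ fc (cx f) 0 = 0 := by
  unfold MeanFree fc cx
  rw [neg_zero, UnitAddTorus.mFourier_zero]
  simp only [ContinuousMap.one_apply, one_mul]
  rw [integral_complex_ofReal]
  exact Complex.ofReal_eq_zero.symm

/-- `k^⊥` -/
noncomputable def kp (k : Fr) : Fin 2 → ℝ := ![-(k 1 : ℝ), (k 0 : ℝ)]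

/-- velocity coefficients -/
noncomputable def uc (κ : ℝ) (w : Fr → ℂ) (i : Fin 2) (k : Fr) : ℂ :=
  -Complex.I * ((kp k i / (κ * nsq k) : ℝ) : ℂ) * w k

theorem kp_neg (k : Fr) (i : Fin 2) : kp (-k) i = - kp k i := by
  fin_cases i <;> simp [kp]

theorem kp_sq (k : Fr) : kp k 0 ^ 2 + kp k 1 ^ 2 = nsq k := by
  simp [kp, nsq]
  ring

theorem uc_neg (κ : ℝ) {w : Fr → ℂ} (hw : ∀ k, w (-k) = conj (w k)) (i : Fin 2) (k : Fr) :
    uc κ w i (-k) = conj (uc κ w i k) := by
  unfold uc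
  rw [map_mul, map_mul, map_neg, Complex.conj_I, Complex.conj_ofReal, hw, kp_neg, nsq_neg]
  push_cast
  ring

theorem norm_uc_sq (κ : ℝ) (w : Fr → ℂ) (k : Fr) :
    κ ^ 2 * nsq k * ∑ i, ‖uc κ w i k‖ ^ 2 ≤ ‖w k‖ ^ 2 := by
  have h1 : ∀ i, ‖uc κ w i k‖ ^ 2 = (kp k i) ^ 2 / (κ * nsq k) ^ 2 * ‖w k‖ ^ 2 := by
    intro i
    unfold uc
    rw [norm_mul, norm_mul, norm_neg, Complex.norm_I, one_mul, Complex.norm_real,
      Real.norm_eq_abs, mul_pow, sq_abs, div_pow]
  rw [Fin.sum_univ_two, h1, h1]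
  have h2 : κ ^ 2 * nsq k * (kp k 0 ^ 2 / (κ * nsq k) ^ 2 * ‖w k‖ ^ 2 +
      kp k 1 ^ 2 / (κ * nsq k) ^ 2 * ‖w k‖ ^ 2) =
      (κ ^ 2 * nsq k * (kp k 0 ^ 2 + kp k 1 ^ 2)) / (κ * nsq k) ^ 2 * ‖w k‖ ^ 2 := by ring
  rw [h2, kp_sq]
  have h3 : κ ^ 2 * nsq k * nsq k / (κ * nsq k) ^ 2 ≤ 1 := by
    have : κ ^ 2 * nsq k * nsq k = (κ * nsq k) ^ 2 := by ring
    rw [this]
    exact div_self_le_one _
  calc κ ^ 2 * nsq k * nsq k / (κ * nsq k) ^ 2 * ‖w k‖ ^ 2 ≤ 1 * ‖w k‖ ^ 2 :=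
        mul_le_mul_of_nonneg_right h3 (sq_nonneg _)
    _ = _ := one_mul _

theorem norm_uc_le {κ : ℝ} (hκ : 0 < κ) (w : Fr → ℂ) (i : Fin 2) (k : Fr) :
    ‖uc κ w i k‖ ^ 2 ≤ 1 / κ ^ 2 * ‖w k‖ ^ 2 := by
  by_cases hk : k = 0
  · subst hk
    unfold uc
    rw [nsq_zero]
    simp
    positivity
  · have h1 := norm_uc_sq κ w k
    have h2 := one_le_nsq hk
    have h3 : ‖uc κ w i k‖ ^ 2 ≤ ∑ i, ‖uc κ w i k‖ ^ 2 :=
      Finset.single_le_sum (f := fun i => ‖uc κ w i k‖ ^ 2) (fun _ _ => sq_nonneg _)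
        (Finset.mem_univ i)
    rw [one_div, inv_mul_eq_div, le_div_iff₀ (by positivity)]
    have h4 : 0 ≤ ∑ i, ‖uc κ w i k‖ ^ 2 := Finset.sum_nonneg (fun _ _ => sq_nonneg _)
    calc ‖uc κ w i k‖ ^ 2 * κ ^ 2 ≤ (∑ i, ‖uc κ w i k‖ ^ 2) * κ ^ 2 :=
          mul_le_mul_of_nonneg_right h3 (sq_nonneg _)
      _ = κ ^ 2 * 1 * (∑ i, ‖uc κ w i k‖ ^ 2) := by ring
      _ ≤ κ ^ 2 * nsq k * (∑ i, ‖uc κ w i k‖ ^ 2) := by gcongr
      _ ≤ _ := h1

theorem sqLe_uc {κ : ℝ} (hκ : 0 < κ) {w : Fr → ℂ} {C : ℝ} (hw : SqLe w C) (i : Fin 2) :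
    SqLe (uc κ w i) (1 / κ ^ 2 * C) := by
  intro S
  calc ∑ k ∈ S, ‖uc κ w i k‖ ^ 2 ≤ ∑ k ∈ S, 1 / κ ^ 2 * ‖w k‖ ^ 2 :=
        Finset.sum_le_sum (fun k _ => norm_uc_le hκ w i k)
    _ = 1 / κ ^ 2 * ∑ k ∈ S, ‖w k‖ ^ 2 := by rw [Finset.mul_sum]
    _ ≤ _ := mul_le_mul_of_nonneg_left (hw S) (by positivity)

theorem dot_uc (κ : ℝ) (w : Fr → ℂ) (q l : Fr) :
    ∑ j, (q j : ℂ) * uc κ w j l = -(Complex.I / κ) * mu q l * w l := by
  unfold uc mu cr kp
  rw [Fin.sum_univ_two]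
  simp
  ring

theorem mu_neg_left (q l : Fr) : mu (-q) l = - mu q l := by
  unfold mu cr
  simp
  ring

theorem a_dot_uc {κ : ℝ} (a : Fin 2 → ℂ) {q : Fr} (hq : q ≠ 0) (ha : ∑ i, a i * (q i : ℂ) = 0)
    (w : Fr → ℂ) (m : Fr) :
    ∑ i, a i * uc κ w i m = -(Complex.I / κ) * ((a 1 * q 0 - a 0 * q 1) / nsq q) *
      (((q 0 : ℝ) * m 0 + (q 1 : ℝ) * m 1) / nsq m : ℝ) * w m := by
  have hq' : (nsq q : ℂ) ≠ 0 := by
    have := (nsq_pos hq).ne'
    exact_mod_cast this
  rw [Fin.sum_univ_two] at ha ⊢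
  have h1 : (a 1 * (m 0 : ℂ) - a 0 * (m 1 : ℂ)) = ((a 1 * q 0 - a 0 * q 1) / nsq q) *
      ((q 0 : ℂ) * m 0 + (q 1 : ℂ) * m 1) := by
    rw [div_mul_eq_mul_div, eq_div_iff hq']
    unfold nsq
    push_cast
    linear_combination ((q 1 : ℂ) * m 0 - (q 0 : ℂ) * m 1) * ha
  unfold uc kp
  simp only [Matrix.cons_val_zero, Matrix.cons_val_one]
  push_cast
  calc a 0 * (-Complex.I * (-(m 1 : ℂ) / (κ * nsq m)) * w m) +
        a 1 * (-Complex.I * ((m 0 : ℂ) / (κ * nsq m)) * w m)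
      = -(Complex.I / κ) * (a 1 * (m 0 : ℂ) - a 0 * (m 1 : ℂ)) / nsq m * w m := by
        ring
    _ = _ := by
        rw [h1]
        ring

/-- the antisymmetric part of the momentum flux does not contribute -/
theorem flux_identity {w : Fr → ℂ} {C : ℝ} (hw : SqLe w C) (hw0 : w 0 = 0) (q : Fr) :
    ∑' l, (mu q l : ℂ) * w l *
      ((((q 0 : ℝ) * (q - l) 0 + (q 1 : ℝ) * (q - l) 1) / nsq (q - l) : ℝ) * w (q - l)) =
      NN w w q := by
  set D : Fr → ℂ := fun l => (mu q l : ℂ) * w l *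
    ((((l 0 : ℝ) * (q - l) 0 + (l 1 : ℝ) * (q - l) 1) / nsq (q - l) : ℝ) * w (q - l)) with hD
  have hanti : ∀ l, D (q - l) = - D l := by
    intro l
    simp only [hD]
    unfold mu
    rw [cr_self_sub, sub_sub_cancel]
    have e : (((q - l) 0 : ℤ) : ℝ) * (l 0 : ℝ) + (((q - l) 1 : ℤ) : ℝ) * (l 1 : ℝ) =
      (l 0 : ℝ) * (((q - l) 0 : ℤ) : ℝ) + (l 1 : ℝ) * (((q - l) 1 : ℤ) : ℝ) := by ring
    rw [e]
    push_cast
    ring
  have hsplit : ∀ l, (mu q l : ℂ) * w l *
      ((((q 0 : ℝ) * (q - l) 0 + (q 1 : ℝ) * (q - l) 1) / nsq (q - l) : ℝ) * w (q - l)) =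
      (mu q l : ℂ) * w l * w (q - l) + D l := by
    intro l
    simp only [hD]
    by_cases hl : q - l = 0
    · rw [hl, hw0]
      ring
    · have h1 : (nsq (q - l) : ℂ) ≠ 0 := by
        have := (nsq_pos hl).ne'
        exact_mod_cast this
      have h2 : (((q 0 : ℝ) * (q - l) 0 + (q 1 : ℝ) * (q - l) 1) / nsq (q - l) : ℝ) =
          1 + (((l 0 : ℝ) * (q - l) 0 + (l 1 : ℝ) * (q - l) 1) / nsq (q - l) : ℝ) := by
        have h3 := (nsq_pos hl).ne'
        rw [eq_comm, ← sub_eq_zero]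
        field_simp
        unfold nsq
        simp only [Pi.sub_apply]
        push_cast
        ring
      rw [h2]
      push_cast
      ring
  have hsumN := summable_term hw hw q
  have hT : ∑' l, D l = 0 := by
    have h1 : ∑' l, D (q - l) = ∑' l, D l := (Equiv.subLeft q).tsum_eq D
    have h2 : ∑' l, D (q - l) = - ∑' l, D l := by
      rw [← tsum_neg]
      exact tsum_congr hanti
    rw [h2] at h1
    have h3 : (2 : ℂ) * ∑' l, D l = 0 := by linear_combination -h1
    simpa using h3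
  by_cases hDs : Summable D
  · rw [tsum_congr hsplit, Summable.tsum_add hsumN hDs, hT, add_zero]
    rfl
  · exfalso
    apply hDs
    -- `|dot(l, q-l)| / nsq (q-l)` is at most `|l| / |q-l|`, so the terms are bounded
    have hb : ∀ l, ‖D l‖ ≤ (2 * l1 q) * ((‖w l‖ ^ 2 + ‖w (q - l)‖ ^ 2) / 2) := by
      intro l
      by_cases hl : l = 0
      · simp only [hD]
        rw [hl, mu_zero_right]
        simp
        have := l1_nonneg q
        positivity
      by_cases hm : q - l = 0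
      · simp only [hD]
        rw [hm, hw0]
        simp
        have := l1_nonneg q
        positivity
      have hnl := nsq_pos hl
      have hnm := nsq_pos hm
      set c1 : ℝ := mu q l * (((l 0 : ℝ) * (q - l) 0 + (l 1 : ℝ) * (q - l) 1) / nsq (q - l)) with hc1
      have hD' : D l = (c1 : ℂ) * (w l * w (q - l)) := by
        simp only [hD, hc1]
        push_cast
        ring
      have hc : |c1| ≤ 2 * l1 q := by
        -- cr q l = cr (q-l) l
        have hcr : cr q l = cr (q - l) l := by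
          unfold cr
          simp
          ring
        set m := q - l with hmdef
        have e1 : |cr m l| * |(l 0 : ℝ) * m 0 + (l 1 : ℝ) * m 1| ≤ nsq l * nsq m := by
          rw [← abs_mul]
          have e2 : (cr m l) ^ 2 + ((l 0 : ℝ) * m 0 + (l 1 : ℝ) * m 1) ^ 2 = nsq l * nsq m := by
            unfold cr nsq
            ring
          rw [abs_le]
          constructor
          · nlinarith [sq_nonneg (cr m l + ((l 0 : ℝ) * m 0 + (l 1 : ℝ) * m 1)),
              mul_pos hnl hnm]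
          · nlinarith [sq_nonneg (cr m l - ((l 0 : ℝ) * m 0 + (l 1 : ℝ) * m 1)),
              mul_pos hnl hnm]
        have e3 : |c1| ≤ 1 := by
          rw [hc1]
          unfold mu
          rw [hcr, div_mul_div_comm, abs_div, abs_mul, abs_of_pos (mul_pos hnl hnm)]
          exact div_le_one_of_le₀ e1 (mul_pos hnl hnm).le
        have e4 : (1 : ℝ) ≤ 2 * l1 q ∨ q = 0 := by
          by_cases hq : q = 0
          · right; exact hq
          · left
            have h5 := one_le_nsq hq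
            have h6 : nsq q ≤ l1 q ^ 2 := by
              unfold nsq l1
              nlinarith [abs_nonneg (q 0 : ℝ), abs_nonneg (q 1 : ℝ), sq_abs (q 0 : ℝ),
                sq_abs (q 1 : ℝ), mul_nonneg (abs_nonneg (q 0 : ℝ)) (abs_nonneg (q 1 : ℝ))]
            nlinarith [l1_nonneg q]
        rcases e4 with h | h
        · linarith
        · have : c1 = 0 := by
            rw [hc1, h]
            unfold mu cr
            simp
          rw [this, abs_zero]
          have := l1_nonneg q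
          positivity
      rw [hD', norm_mul, norm_mul, Complex.norm_real, Real.norm_eq_abs]
      have h1 : ‖w l‖ * ‖w (q - l)‖ ≤ (‖w l‖ ^ 2 + ‖w (q - l)‖ ^ 2) / 2 := by
        nlinarith [sq_nonneg (‖w l‖ - ‖w (q - l)‖)]
      exact mul_le_mul hc h1 (by positivity) ((abs_nonneg _).trans hc)
    exact Summable.of_norm_bounded (summable_maj hw hw q (2 * l1 q)) hb

theorem test_zero {U : Set ℝ} (hU : IsOpen U) {F f : ℝ → ℂ}
    (hder : ∀ t ∈ U, HasDerivAt F (f t) t) (hf : ContinuousOn f U) {ψ : ℝ → ℝ}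
    (hψ : ContDiff ℝ ∞ ψ) (hc : HasCompactSupport ψ) (hs : tsupport ψ ⊆ U) :
    ∫ t, (((deriv ψ t : ℝ) : ℂ) * F t + (ψ t : ℂ) * f t) = 0 := by
  have hψd : ∀ t, HasDerivAt ψ (deriv ψ t) t := fun t =>
    (hψ.differentiable (by simp)).differentiableAt.hasDerivAt
  have hout : ∀ t, t ∉ U → ∀ᶠ s in 𝓝 t, ψ s = 0 ∧ deriv ψ s = 0 := by
    intro t ht
    have h1 : (tsupport ψ)ᶜ ∈ 𝓝 t :=
      (isClosed_tsupport ψ).isOpen_compl.mem_nhds (fun h => ht (hs h))
    filter_upwards [h1] with s hs'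
    refine ⟨image_eq_zero_of_notMem_tsupport hs', ?_⟩
    have : s ∉ Function.support (deriv ψ) := fun h => hs' (support_deriv_subset h)
    simpa using this
  have hG : ∀ t, HasDerivAt (fun t => (ψ t : ℂ) * F t)
      (((deriv ψ t : ℝ) : ℂ) * F t + (ψ t : ℂ) * f t) t := by
    intro t
    by_cases ht : t ∈ U
    · exact (hψd t).ofReal_comp.mul (hder t ht)
    · have h0 := hout t ht
      have h1 := h0.self_of_nhds
      rw [h1.1, h1.2]
      simp only [Complex.ofReal_zero, zero_mul, add_zero]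
      refine (hasDerivAt_const t (0 : ℂ)).congr_of_eventuallyEq ?_
      filter_upwards [h0] with s hs'
      rw [hs'.1]
      simp
  have hG'c : Continuous (fun t => ((deriv ψ t : ℝ) : ℂ) * F t + (ψ t : ℂ) * f t) := by
    rw [continuous_iff_continuousAt]
    intro t
    by_cases ht : t ∈ U
    · have hdc : Continuous (deriv ψ) := hψ.continuous_deriv (by simp)
      exact ((Complex.continuous_ofReal.comp hdc).continuousAt.mul (hder t ht).continuousAt).add
        ((Complex.continuous_ofReal.comp hψ.continuous).continuousAt.mul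
          (hf.continuousAt (hU.mem_nhds ht)))
    · have h0 := hout t ht
      have : (fun t => ((deriv ψ t : ℝ) : ℂ) * F t + (ψ t : ℂ) * f t) =ᶠ[𝓝 t] fun _ => 0 := by
        filter_upwards [h0] with s hs'
        rw [hs'.1, hs'.2]
        simp
      exact continuousAt_const.congr this.symm
  have hGs : HasCompactSupport (fun t => (ψ t : ℂ) * F t) := by
    refine hc.mono' ?_
    intro t ht
    apply subset_tsupport
    intro h
    apply ht
    simp [h]
  have hG's : HasCompactSupport (fun t => ((deriv ψ t : ℝ) : ℂ) * F t + (ψ t : ℂ) * f t) := by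
    refine hc.mono' ?_
    intro t ht
    by_contra h
    apply ht
    have h1 : t ∉ Function.support (deriv ψ) := fun h' => h (support_deriv_subset h')
    have h2 : deriv ψ t = 0 := by simpa using h1
    simp [h2, image_eq_zero_of_notMem_tsupport h]
  have hGc : Continuous (fun t => (ψ t : ℂ) * F t) :=
    continuous_iff_continuousAt.2 (fun t => (hG t).continuousAt)
  exact integral_eq_zero_of_hasDerivAt_of_integrable hG
    (hG'c.integrable_of_hasCompactSupport hG's) (hGc.integrable_of_hasCompactSupport hGs)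

theorem hasDerivAt_of_integral {I : Set ℝ} {F f : ℝ → ℂ}
    (hf : ContinuousOn f I)
    (h : ∀ s ∈ I, ∀ t ∈ I, F t - F s = ∫ τ in s..t, f τ) {t : ℝ} (ht : t ∈ interior I) :
    HasDerivAt F (f t) t := by
  have hI' : I ∈ 𝓝 t := mem_interior_iff_mem_nhds.1 ht
  have h1 : HasDerivAt (fun s => ∫ τ in t..s, f τ) (f t) t := by
    refine intervalIntegral.integral_hasDerivAt_right (by simp) ?_ (hf.continuousAt hI')
    exact hf.mono interior_subset |>.stronglyMeasurableAtFilter isOpen_interior t ht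
  have h2 : HasDerivAt (fun s => F t + ∫ τ in t..s, f τ) (f t) t := h1.const_add _
  refine h2.congr_of_eventuallyEq ?_
  filter_upwards [hI'] with s hs
  rw [← h t (interior_subset ht) s hs]
  ring

end Pool.Agent.Q64.Bous
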