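import Pool.Agent.Q64.Bous.Main

/-!
# Coefficient-level solutions are solutions
-/

set_option autoImplicit false

open Set Filter Topology MeasureTheory
open scoped ComplexConjugate ContDiff

namespace Pool.Agent.Q64.Bous

open UnitAddTorus (mFourier)

theorem L2R_fn (c : Fr → ℂ) : L2R.fn (toL2 c) = ⇑(toL2 c) := rfl

theorem uc_zero (κ : ℝ) (w : Fr → ℂ) (i : Fin 2) : uc κ w i 0 = 0 := by
  unfold uc
  rw [nsq_zero]
  simp

theorem memH_toL2 {κ : ℝ} (hκ : 0 < κ) {w : Fr → ℂ} {C : ℝ} (hw : SqLe w C)
    (hs : ∀ k, w (-k) = conj (w k)) : MemH (fun i => toL2 (uc κ w i)) := by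
  have hm : ∀ i, Memℓp (uc κ w i) 2 := fun i => memℓp_of_sqLe (sqLe_uc hκ hw i)
  have hn : ∀ i k, uc κ w i (-k) = conj (uc κ w i k) := fun i k => uc_neg κ hs i k
  refine ⟨fun i => ?_, fun k => ?_⟩
  · rw [meanFree_iff, fc_toL2 (hm i) (hn i), uc_zero]
  · have h1 : ∀ i, pair (toL2 (uc κ w i)) k = uc κ w i (-k) := fun i => by
      rw [pair_eq, fc_toL2 (hm i) (hn i)]
    simp only [L2R_fn, h1]
    have h2 := dot_uc κ w (-k) (-k)
    have h3 : mu (-k) (-k) = 0 := by
      unfold mu cr
      simp
      left
      ring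
    rw [h3] at h2
    simp only [Pi.neg_apply, Int.cast_neg, neg_mul, Finset.sum_neg_distrib, Complex.ofReal_zero,
      mul_zero, zero_mul, neg_eq_zero] at h2
    exact h2

theorem gradSq_le {L : ℝ} (hL : 0 < L) {w : Fr → ℂ} {C : ℝ} (hw : SqLe w C)
    (hs : ∀ k, w (-k) = conj (w k)) :
    gradSq L (fun i => toL2 (uc (2 * Real.pi / L) w i)) ≤ ENNReal.ofReal C := by
  set κ : ℝ := 2 * Real.pi / L with hκ
  have hκ0 : 0 < κ := by positivity
  have hm : ∀ i, Memℓp (uc κ w i) 2 := fun i => memℓp_of_sqLe (sqLe_uc hκ0 hw i)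
  have hn : ∀ i k, uc κ w i (-k) = conj (uc κ w i k) := fun i k => uc_neg κ hs i k
  have h1 : ∀ i k, pair (toL2 (uc κ w i)) k = uc κ w i (-k) := fun i k => by
      rw [pair_eq, fc_toL2 (hm i) (hn i)]
  unfold gradSq
  rw [ENNReal.tsum_eq_iSup_sum]
  refine iSup_le (fun S => ?_)
  rw [← ENNReal.ofReal_sum_of_nonneg (fun k _ => by positivity)]
  apply ENNReal.ofReal_le_ofReal
  simp only [L2R_fn]
  calc ∑ k ∈ S, (2 * Real.pi / L) ^ 2 * ((k 0 : ℝ) ^ 2 + (k 1 : ℝ) ^ 2) *
        ∑ i, ‖pair (toL2 (uc κ w i)) k‖ ^ 2 ≤ ∑ k ∈ S, ‖w k‖ ^ 2 := by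
        refine Finset.sum_le_sum (fun k _ => ?_)
        have h2 := norm_uc_sq κ w (-k)
        rw [nsq_neg, hs, Complex.norm_conj] at h2
        simp only [h1]
        exact h2
    _ ≤ C := hw S

theorem CSol.isSolution {L ν g C : ℝ} (hL : 0 < L) {I : Set ℝ} {w θ : ℝ → Fr → ℂ}
    (h : CSol ν (2 * Real.pi / L) g {0}ᶜ I C w θ) :
    IsSolution L ν g I (fun t i => toL2 (uc (2 * Real.pi / L) (w t) i)) (fun t => toL2 (θ t)) := by
  set κ : ℝ := 2 * Real.pi / L with hκ
  have hκ0 : 0 < κ := by positivity
  have hsw : ∀ t ∈ I, ∀ k, w t (-k) = conj (w t k) := fun t ht k => (h.symm t ht k).1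
  have hsθ : ∀ t ∈ I, ∀ k, θ t (-k) = conj (θ t k) := fun t ht k => (h.symm t ht k).2
  have hmu : ∀ t ∈ I, ∀ i, Memℓp (uc κ (w t) i) 2 := fun t ht i =>
    memℓp_of_sqLe (sqLe_uc hκ0 (h.sq_w t ht) i)
  have hmθ : ∀ t ∈ I, Memℓp (θ t) 2 := fun t ht => memℓp_of_sqLe (h.sq_θ t ht)
  have hnu : ∀ t ∈ I, ∀ i k, uc κ (w t) i (-k) = conj (uc κ (w t) i k) := fun t ht i k =>
    uc_neg κ (hsw t ht) i k
  have hpu : ∀ t ∈ I, ∀ i k, pair (toL2 (uc κ (w t) i)) k = uc κ (w t) i (-k) := fun t ht i k => by
    rw [pair_eq, fc_toL2 (hmu t ht i) (hnu t ht i)]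
  have hpθ : ∀ t ∈ I, ∀ k, pair (toL2 (θ t)) k = θ t (-k) := fun t ht k => by
    rw [pair_eq, fc_toL2 (hmθ t ht) (hsθ t ht)]
  have hcw : ∀ k, ContinuousOn (fun t => w t k) I := fun k => (h.cont k).1
  have hcθ : ∀ k, ContinuousOn (fun t => θ t k) I := fun k => (h.cont k).2
  have hcuc : ∀ i k, ContinuousOn (fun t => uc κ (w t) i k) I := by
    intro i k
    unfold uc
    exact continuousOn_const.mul (hcw k)
  refine ⟨?_, ?_, ?_, ?_, ?_, ?_, ?_⟩
  · exact fun t ht => memH_toL2 hκ0 (h.sq_w t ht) (hsw t ht)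
  · intro t ht
    rw [meanFree_iff, fc_toL2 (hmθ t ht) (hsθ t ht)]
    exact (h.supp t ht 0 (by simp)).2
  · intro i φ t ht
    refine toL2_weak_tendsto (C := 1 / κ ^ 2 * C) ?_ (sqLe_uc hκ0 (h.sq_w t ht) i) (hnu t ht i)
      (fun k => hcuc i k t ht) φ
    filter_upwards [self_mem_nhdsWithin] with s hs
    exact ⟨sqLe_uc hκ0 (h.sq_w s hs) i, hnu s hs i⟩
  · intro φ t ht
    refine toL2_weak_tendsto (C := C) ?_ (h.sq_θ t ht) (hsθ t ht) (fun k => hcθ k t ht) φ
    filter_upwards [self_mem_nhdsWithin] with s hs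
    exact ⟨h.sq_θ s hs, hsθ s hs⟩
  · intro a b hab
    calc ∫⁻ t in Icc a b, gradSq L (fun i => toL2 (uc κ (w t) i))
        ≤ ∫⁻ t in Icc a b, ENNReal.ofReal C := by
          refine setLIntegral_mono measurable_const (fun t ht => ?_)
          exact gradSq_le hL (h.sq_w t (hab ht)) (hsw t (hab ht))
      _ < ⊤ := by
          rw [setLIntegral_const, Real.volume_Icc]
          exact ENNReal.mul_lt_top ENNReal.ofReal_lt_top ENNReal.ofReal_lt_top
  · rintro k a ha ψ ⟨hψ, hψc, hψs⟩
    set q : Fr := -k with hq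
    have ha' : ∑ i, a i * (q i : ℂ) = 0 := by
      rw [hq]
      simp only [Pi.neg_apply, Int.cast_neg, mul_neg, Finset.sum_neg_distrib, ha, neg_zero]
    -- the two functions
    have key : ∃ c : ℂ, (∀ t ∈ I, ∑ i, a i * pair (toL2 (uc κ (w t) i)) k = c * w t q) ∧
        ∀ t ∈ I, 2 * Real.pi * Complex.I / L *
              ∑ i, ∑ j, a i * (k j : ℂ) *
                pair (fun y => toL2 (uc κ (w t) i) y * toL2 (uc κ (w t) j) y) k
            - ν * (2 * Real.pi / L) ^ 2 * ((k 0 : ℂ) ^ 2 + (k 1 : ℂ) ^ 2) *
              ∑ i, a i * pair (toL2 (uc κ (w t) i)) k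
            + g * a 1 * pair (toL2 (θ t)) k =
          c * (if q = 0 then 0 else Fw ν κ g (w t) (θ t) q) := by
      by_cases hq0 : q = 0
      · refine ⟨0, ?_, ?_⟩
        · intro t ht
          simp only [hpu t ht, ← hq, hq0, uc_zero]
          simp
        · intro t ht
          have hk0 : k = 0 := by
            rw [hq] at hq0
            exact neg_eq_zero.1 hq0
          simp only [hpu t ht, hpθ t ht, hq0, if_true, hk0, Pi.zero_apply, neg_zero, uc_zero,
            (h.supp t ht 0 (by simp)).2]
          simp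
      · have hqn := (nsq_pos hq0).ne'
        have hqn' : (nsq q : ℂ) ≠ 0 := by exact_mod_cast hqn
        have hκ' : (κ : ℂ) ≠ 0 := by exact_mod_cast hκ0.ne'
        set lam : ℂ := (a 1 * q 0 - a 0 * q 1) / nsq q with hlam
        have hsum : ∀ t ∈ I, ∑ i, a i * pair (toL2 (uc κ (w t) i)) k =
            -(Complex.I / κ) * lam * w t q := by
          intro t ht
          simp only [hpu t ht, ← hq]
          rw [a_dot_uc a hq0 ha' (w t) q]
          have : (((q 0 : ℝ) * q 0 + (q 1 : ℝ) * q 1) / nsq q : ℝ) = 1 := by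
            rw [div_eq_one_iff_eq hqn]
            unfold nsq
            ring
          rw [this]
          push_cast
          ring
        refine ⟨-(Complex.I / κ) * lam, hsum, ?_⟩
        intro t ht
        rw [hsum t ht, hpθ t ht, ← hq, if_neg hq0]
        have hflux : ∑ i, ∑ j, a i * (k j : ℂ) *
            pair (fun y => toL2 (uc κ (w t) i) y * toL2 (uc κ (w t) j) y) k =
            -(1 / κ) ^ 2 * lam * (-1) * NN (w t) (w t) q := by
          have e1 : ∀ i j, pair (fun y => toL2 (uc κ (w t) i) y * toL2 (uc κ (w t) j) y) k =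
              ∑' l, uc κ (w t) j l * uc κ (w t) i (q - l) := by
            intro i j
            rw [pair_mul_eq]
            refine tsum_congr (fun l => ?_)
            rw [fc_toL2 (hmu t ht j) (hnu t ht j), fc_toL2 (hmu t ht i) (hnu t ht i)]
          have hsm : ∀ i j, Summable (fun l => uc κ (w t) j l * uc κ (w t) i (q - l)) := by
            intro i j
            have h1 := sqLe_uc hκ0 (h.sq_w t ht) j
            have h2 := sqLe_uc hκ0 (h.sq_w t ht) i
            refine Summable.of_norm_bounded (summable_maj h1 h2 q 1) (fun l => ?_)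
            rw [norm_mul, one_mul]
            nlinarith [sq_nonneg (‖uc κ (w t) j l‖ - ‖uc κ (w t) i (q - l)‖)]
          simp only [e1]
          have e2 : ∑ i, ∑ j, a i * (k j : ℂ) * ∑' l, uc κ (w t) j l * uc κ (w t) i (q - l) =
              ∑' l, (∑ j, (k j : ℂ) * uc κ (w t) j l) * (∑ i, a i * uc κ (w t) i (q - l)) := by
            have e3 : ∀ i j, a i * (k j : ℂ) * ∑' l, uc κ (w t) j l * uc κ (w t) i (q - l) =
                ∑' l, (a i * uc κ (w t) i (q - l)) * ((k j : ℂ) * uc κ (w t) j l) := by
              intro i j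
              rw [← tsum_mul_left]
              exact tsum_congr (fun l => by ring)
            have e4 : ∀ i j, Summable (fun l =>
                (a i * uc κ (w t) i (q - l)) * ((k j : ℂ) * uc κ (w t) j l)) := by
              intro i j
              refine ((hsm i j).mul_left (a i * (k j : ℂ))).congr (fun l => ?_)
              ring
            simp only [e3, Fin.sum_univ_two]
            rw [← Summable.tsum_add (e4 0 0) (e4 0 1), ← Summable.tsum_add (e4 1 0) (e4 1 1),
              ← Summable.tsum_add ((e4 0 0).add (e4 0 1)) ((e4 1 0).add (e4 1 1))]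
            exact tsum_congr (fun l => by ring)
          rw [e2]
          have hw0 : w t 0 = 0 := (h.supp t ht 0 (by simp)).1
          rw [← flux_identity (h.sq_w t ht) hw0 q, ← tsum_mul_left]
          refine tsum_congr (fun l => ?_)
          have e5 : k = -q := by rw [hq, neg_neg]
          rw [dot_uc, a_dot_uc a hq0 ha' (w t) (q - l)]
          have e6 : mu k l = - mu q l := by rw [e5, mu_neg_left]
          rw [e6, ← hlam]
          push_cast
          linear_combination (-(mu q l : ℂ) * w t l * lam * ((((q 0 : ℝ) : ℂ) * (((q - l) 0 : ℤ) : ℂ) +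
            ((q 1 : ℝ) : ℂ) * (((q - l) 1 : ℤ) : ℂ)) / (nsq (q - l) : ℂ)) * w t (q - l) / κ ^ 2) *
              Complex.I_sq
        rw [hflux]
        unfold Fw sA sG
        have hlam1 : a 1 = lam * q 0 := by
          rw [hlam, div_mul_eq_mul_div, eq_div_iff hqn']
          rw [Fin.sum_univ_two] at ha'
          unfold nsq
          push_cast
          linear_combination (q 1 : ℂ) * ha'
        have hkq0 : (k 0 : ℂ) ^ 2 + (k 1 : ℂ) ^ 2 = (nsq q : ℂ) := by
          rw [hq]
          unfold nsq
          simp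
        have hκL : (2 * Real.pi * Complex.I / L : ℂ) = κ * Complex.I := by
          rw [hκ]
          push_cast
          ring
        have hκL2 : (2 * Real.pi / L : ℂ) = κ := by
          rw [hκ]
          push_cast
          ring
        rw [hlam1, hkq0, hκL, hκL2]
        push_cast
        field_simp
        linear_combination (κ * g * lam * q 0 * θ t q) * Complex.I_sq
    obtain ⟨c, hc1, hc2⟩ := key
    set f : ℝ → ℂ := fun t => c * (if q = 0 then 0 else Fw ν κ g (w t) (θ t) q) with hf
    have hfc : ContinuousOn f I := by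
      rw [hf]
      by_cases hq0 : q = 0
      · simp only [hq0, if_true]
        exact continuousOn_const
      · simp only [hq0, if_false]
        exact continuousOn_const.mul (Fw_continuousOn h.sq_w hcw hcθ q)
    have hint : ∀ s ∈ I, ∀ t ∈ I, c * w t q - c * w s q = ∫ τ in s..t, f τ := by
      intro s hs t ht
      rw [hf]
      by_cases hq0 : q = 0
      · simp only [hq0, if_true]
        rw [(h.supp t ht 0 (by simp)).1, (h.supp s hs 0 (by simp)).1]
        simp
      · simp only [hq0, if_false]
        rw [intervalIntegral.integral_const_mul, ← h.eq_w q (by simpa using hq0) s hs t ht]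
        ring
    have hz := test_zero isOpen_interior
      (fun t ht => hasDerivAt_of_integral (F := fun t => c * w t q) hfc hint ht)
      (hfc.mono interior_subset) hψ hψc hψs
    rw [← hz]
    congr 1
    funext t
    by_cases ht : t ∈ interior I
    · have ht' := interior_subset ht
      have e1 : fluxPair L (fun i => toL2 (uc κ (w t) i)) a k +
          ν * lapPair L (fun i => toL2 (uc κ (w t) i)) a k +
            g * a 1 * pair (L2R.fn (toL2 (θ t))) k = f t := by
        simp only [hf]
        rw [← hc2 t ht']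
        unfold fluxPair lapPair velPair
        simp only [L2R_fn]
        ring
      simp only
      rw [e1]
      unfold velPair
      simp only [L2R_fn]
      rw [hc1 t ht']
    · have h0 : t ∉ tsupport ψ := fun h' => ht (hψs h')
      have h1 : ψ t = 0 := image_eq_zero_of_notMem_tsupport h0
      have h2 : deriv ψ t = 0 := by
        have : t ∉ Function.support (deriv ψ) := fun h => h0 (support_deriv_subset h)
        simpa using this
      rw [h1, h2]
      simp
  · rintro k ψ ⟨hψ, hψc, hψs⟩
    set q : Fr := -k with hq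
    have hrhs : ∀ t ∈ I, 2 * Real.pi * Complex.I / L *
        ∑ j, (k j : ℂ) * pair (fun y => toL2 (θ t) y * toL2 (uc κ (w t) j) y) k =
        -NN (w t) (θ t) q := by
      intro t ht
      have e1 : ∀ j, pair (fun y => toL2 (θ t) y * toL2 (uc κ (w t) j) y) k =
          ∑' l, uc κ (w t) j l * θ t (q - l) := by
        intro j
        rw [pair_mul_eq]
        refine tsum_congr (fun l => ?_)
        rw [fc_toL2 (hmu t ht j) (hnu t ht j), fc_toL2 (hmθ t ht) (hsθ t ht)]
      have hsm : ∀ j, Summable (fun l => uc κ (w t) j l * θ t (q - l)) := by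
        intro j
        have h1 := sqLe_uc hκ0 (h.sq_w t ht) j
        have h2 := h.sq_θ t ht
        have h1' : SqLe (uc κ (w t) j) (max (1 / κ ^ 2 * C) C) := fun S =>
          (h1 S).trans (le_max_left _ _)
        have h2' : SqLe (θ t) (max (1 / κ ^ 2 * C) C) := fun S => (h2 S).trans (le_max_right _ _)
        refine Summable.of_norm_bounded (summable_maj h1' h2' q 1) (fun l => ?_)
        rw [norm_mul, one_mul]
        nlinarith [sq_nonneg (‖uc κ (w t) j l‖ - ‖θ t (q - l)‖)]
      simp only [e1]
      have e2 : ∑ j, (k j : ℂ) * ∑' l, uc κ (w t) j l * θ t (q - l) =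
          ∑' l, (∑ j, (k j : ℂ) * uc κ (w t) j l) * θ t (q - l) := by
        have e3 : ∀ j, (k j : ℂ) * ∑' l, uc κ (w t) j l * θ t (q - l) =
            ∑' l, (k j : ℂ) * (uc κ (w t) j l * θ t (q - l)) := fun j => tsum_mul_left.symm
        simp only [e3, Fin.sum_univ_two]
        rw [← Summable.tsum_add ((hsm 0).mul_left _) ((hsm 1).mul_left _)]
        exact tsum_congr (fun l => by ring)
      rw [e2]
      unfold NN
      rw [← tsum_mul_left, ← tsum_neg]
      refine tsum_congr (fun l => ?_)
      have e5 : k = -q := by rw [hq, neg_neg]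
      have e6 : mu k l = - mu q l := by rw [e5, mu_neg_left]
      rw [dot_uc, e6]
      have hκ' : (κ : ℂ) ≠ 0 := by exact_mod_cast hκ0.ne'
      have hκL : (2 * Real.pi * Complex.I / L : ℂ) = κ * Complex.I := by
        rw [hκ]
        push_cast
        ring
      rw [hκL]
      push_cast
      field_simp
      linear_combination ((mu q l : ℂ) * w t l * θ t (q - l)) * Complex.I_sq
    set f : ℝ → ℂ := fun t => if q = 0 then 0 else -NN (w t) (θ t) q with hf
    have hNN0 : ∀ t ∈ I, q = 0 → -NN (w t) (θ t) q = 0 := by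
      intro t ht hq0
      rw [hq0]
      unfold NN mu cr
      simp
    have hrhs' : ∀ t ∈ I, 2 * Real.pi * Complex.I / L *
        ∑ j, (k j : ℂ) * pair (fun y => toL2 (θ t) y * toL2 (uc κ (w t) j) y) k = f t := by
      intro t ht
      rw [hrhs t ht, hf]
      by_cases hq0 : q = 0
      · simp only [hq0, if_true]
        have := hNN0 t ht hq0
        rwa [hq0] at this
      · simp only [hq0, if_false]
    have hfc : ContinuousOn f I := by
      rw [hf]
      by_cases hq0 : q = 0
      · simp only [hq0, if_true]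
        exact continuousOn_const
      · simp only [hq0, if_false]
        exact (NN_continuousOn h.sq_w h.sq_θ hcw hcθ q).neg
    have hint : ∀ s ∈ I, ∀ t ∈ I, θ t q - θ s q = ∫ τ in s..t, f τ := by
      intro s hs t ht
      rw [hf]
      by_cases hq0 : q = 0
      · simp only [hq0, if_true]
        rw [(h.supp t ht 0 (by simp)).2, (h.supp s hs 0 (by simp)).2]
        simp
      · simp only [hq0, if_false]
        rw [← h.eq_θ q (by simpa using hq0) s hs t ht]
    have hz := test_zero isOpen_interior
      (fun t ht => hasDerivAt_of_integral (F := fun t => θ t q) hfc hint ht)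
      (hfc.mono interior_subset) hψ hψc hψs
    rw [← hz]
    congr 1
    funext t
    by_cases ht : t ∈ interior I
    · have ht' := interior_subset ht
      unfold heatPair
      simp only [L2R_fn]
      rw [hpθ t ht', hrhs' t ht']
    · have h0 : t ∉ tsupport ψ := fun h' => ht (hψs h')
      have h1 : ψ t = 0 := image_eq_zero_of_notMem_tsupport h0
      have h2 : deriv ψ t = 0 := by
        have : t ∉ Function.support (deriv ψ) := fun h => h0 (support_deriv_subset h)
        simpa using this
      rw [h1, h2]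
      simp

end Pool.Agent.Q64.Bous
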